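import Pool.Agent.MP_7ebdba_gt.ch.Main

/-! Row NP: without a chain, a homomorphism to a free product whose kernel lies in the three
subgroups has its image in a conjugate of a factor. -/

namespace Pool.Agent.MP_7ebdba_gt.sm

open ch Monoid Monoid.CoprodI

namespace Np

open Tre Asm

variable {M : Bool → Type} [∀ i, Group (M i)]

theorem fix (v : CoprodI M × Bool) {g : CoprodI M} (hg : g ∈ fixS (walls M) v) :
    ∃ m : M v.2, g = v.1 * of m * v.1⁻¹ := by
  obtain ⟨c, i⟩ := v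
  obtain ⟨h, rfl⟩ : ∃ h, g = c * h * c⁻¹ := ⟨c⁻¹ * g * c, by group⟩
  have key : ∀ y : CoprodI M, sd (y⁻¹ * h) i = sd y⁻¹ i := fun y => by
    have : sd ((c * y)⁻¹ * (c * h * c⁻¹ * c)) i = sd ((c * y)⁻¹ * c) i := hg (c * y)
    simpa [mul_assoc] using this
  obtain e | ⟨j, m, u, k1, k2, e⟩ := cases h⁻¹
  · exact ⟨1, by rw [inv_eq_one.1 e, map_one]⟩
  have e' : h = u⁻¹ * of m⁻¹ := by rw [map_inv, ← mul_inv_rev, ← e, inv_inv]
  obtain rfl : j = i := by
    have := key h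
    rwa [inv_mul_cancel, sd_one, e, sd_cons' k1 k2, eq_comm] at this
  obtain rfl : u = 1 := by
    by_contra hu
    have := key u⁻¹
    rw [e', inv_inv, mul_inv_cancel_left, sd_of_self] at this
    exact k2 ((sd_const hu _ _).trans this.symm)
  exact ⟨m⁻¹, by rw [e', inv_one, one_mul]⟩

theorem nob (z : CoprodI M) : ∃ v, (walls M).NoBack z v := by
  obtain ⟨c, z', e, h⟩ := conj _ z (Nat.lt_succ_self _)
  rcases h with ⟨j, m, rfl⟩ | ⟨h0, h⟩
  · refine ⟨(c, j), fun (x : CoprodI M) hx => hx.1 ?_⟩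
    show sd (x⁻¹ * (z * c)) j = sd (x⁻¹ * c) j
    rw [e, ← mul_assoc, sd_mul_of]
  · refine ⟨(c, sd z' false), fun (x : CoprodI M) hx => ?_⟩
    have h1 : sd (x⁻¹ * (z * c)) (sd z' false) ≠ sd (x⁻¹ * c) (sd z' false) := hx.1
    have h2 : sd (x⁻¹ * (z * z * c)) (sd z' false) ≠ sd (x⁻¹ * (z * c)) (sd z' false) := hx.2
    obtain ⟨y, hy⟩ : ∃ y, y = x⁻¹ * (z * c) := ⟨_, rfl⟩
    have e1 : x⁻¹ * c = y * z'⁻¹ := by rw [hy, e, mul_assoc, mul_inv_cancel_right]
    have e2 : x⁻¹ * (z * z * c) = y * z' := by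
      rw [hy, mul_assoc z z, mul_assoc x⁻¹, mul_assoc z c, ← e]
    rw [e1, ← hy] at h1
    rw [e2, ← hy] at h2
    rcases eq_or_ne y 1 with k | k
    · rw [k, one_mul, sd_one] at h2
      exact h2 (sd_const h0 _ _)
    · by_cases l : sd z' false = sd y⁻¹ false
      · refine h1 ((sd_const k _ false).trans (sd_mul y k _ _ ?_).symm)
        rw [sd_const (inv_ne_one.2 h0) _ false, ← l]
        exact h.symm
      · refine h2 ((sd_mul y k _ _ ?_).trans (sd_const k _ _))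
        rwa [sd_const h0 _ false]

theorem chain_of {H : Type} [Group H] (w : Walls H) (fr : ∀ g x, w.aE g x = x → g = 1)
    (r : S 2 →* F2) (η : S 4 →* H) (hker : ∀ i, η.ker ≤ TT r i) (v : w.V)
    (hv : w.NoBack (η (iot false zeta)) v) (mov : ¬ ∀ g, η g ∈ fixS w v) : Chain r := by
  obtain ⟨n, e, hB⟩ := enum _ w _ v hv
  have hk0 : ∀ s, η s = 1 → dbl r s = 1 := fun s hs => hker 0 hs
  have hk1 : ∀ s, η s = 1 → fold (MulEquiv.refl _) rfl s = 1 := fun s hs => hker 1 hs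
  have hk2 : ∀ s, η s = 1 → fold phi phi_zeta s = 1 := fun s hs => hker 2 hs
  have frc : ∀ (c : Bool) g x, (w.comap (η.comp (iot c))).aE g x = x → g = 1 := fun c g x h =>
    (fold_refl c g).symm.trans (hk1 _ (fr _ x h))
  have hBc : ∀ c : Bool, Based (w.comap (η.comp (iot c))) zeta v n e := fun c => by
    have e1 : (w.comap (η.comp (iot c))).aV zeta = w.aV (η (iot false zeta)) :=
      congrArg (fun s => w.aV (η s)) (iot_zeta' c)
    have e2 : (w.comap (η.comp (iot c))).aE zeta = w.aE (η (iot false zeta)) :=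
      congrArg (fun s => w.aE (η s)) (iot_zeta' c)
    exact ⟨hB.inj, e1 ▸ hB.rng, e1 ▸ hB.mono, e2 ▸ hB.nob⟩
  have hT := fun c : Bool => track _ v n e (hBc c) (frc c)
  have hn : 0 < n := Nat.pos_of_ne_zero fun h0 =>
    mov (top_of_iot ((fixS w v).comap η) fun c g => (hT c).1 h0 g)
  obtain ⟨a, σ, ha⟩ := (hT false).2
  obtain ⟨b, τ, hb⟩ := (hT true).2
  have ma := mt_of_match (hBc false) (frc false) ha
  have mb := mt_of_match (hBc true) (frc true) hb
  have per : ∀ i, ∃ N, 0 < N ∧ (τ ∘ σ)^[N] i = i ∧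
      η (Asm.alt (fun k => iot false (a k)) (fun k => iot true (b k)) σ τ i N) = 1 := fun i => by
    obtain ⟨N, h0, h1⟩ := exists_period ma.inv mb.inv i
    refine ⟨N, h0, h1, fr _ (e i) ?_⟩
    have := alt_lab (w.aE.comp η) (e := e) (a := fun k => iot false (a k))
      (b := fun k => iot true (b k)) ha.lab hb.lab i N
    rwa [h1] at this
  obtain ⟨i1, j1, h1⟩ := mea ma mb ⟨0, hn⟩ fun i => by
    obtain ⟨N, h0, h1, h2⟩ := per i
    refine ⟨N, h0, h1, ?_⟩
    have := hk1 _ h2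
    simpa only [map_alt, fold_refl] using this
  obtain ⟨i2, j2, h2⟩ := mea ma mb.phi ⟨0, hn⟩ fun i => by
    obtain ⟨N, h0, h1, h2⟩ := per i
    refine ⟨N, h0, h1, ?_⟩
    have := hk2 _ h2
    rw [map_alt] at this
    simpa only [fold, glue_false, glue_true, MonoidHom.id_apply, MulEquiv.coe_toMonoidHom]
      using this
  have hx : ∃ k, r (mk 2 (a k)) = 1 ∨ r (mk 2 (b k)) = 1 := by
    by_contra hc
    simp only [not_exists, not_or] at hc
    obtain ⟨N, h0, -, h2⟩ := per ⟨0, hn⟩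
    have := hk0 _ h2
    rw [map_alt] at this
    refine ch.alt ((List.range N).map fun k => (r (mk 2 (a ((τ ∘ σ)^[k] ⟨0, hn⟩))),
      r (mk 2 (b (σ ((τ ∘ σ)^[k] ⟨0, hn⟩)))))) (by simpa using h0.ne') (fun p hp => ?_) ?_
    · obtain ⟨k, -, rfl⟩ := List.mem_map.1 hp
      exact ⟨(hc _).1, (hc _).2⟩
    · rw [List.map_map]
      simpa only [Asm.alt, dbl, glue_false, glue_true, MonoidHom.comp_apply, Function.comp_def]
        using this
  have aa := fun k l => adj2 sigma pd (ma.chd k) (ma.chd l) (ma.nc k l)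
  have bb := fun k l => adj2 sigma pd (mb.chd k) (mb.chd l) (mb.nc k l)
  have na := fun k => nt _ _ _ (ma.chd k)
  have nb := fun k => nt _ _ _ (mb.chd k)
  have c1 := adj2 sigma pd (mb.chd j1) (ma.chd i1) h1
  have c2 := adj2 sigma pd (ma.chd i2) (mb.phi.chd j2) (nc2_symm h2)
  obtain ⟨k, hk | hk⟩ := hx
  · exact ⟨_, _, _, _, _, nb j2, nb j1, na i1, na i2, na k, hk, bb j2 j1, c1, aa i1 i2, c2,
      Or.inr ⟨aa k i1, aa k i2⟩⟩
  · exact ⟨_, _, _, _, _, nb j2, nb j1, na i1, na i2, nb k, hk, bb j2 j1, c1, aa i1 i2, c2,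
      Or.inl ⟨bb k j2, bb k j1⟩⟩

end Np

/-- the strong form: no surjectivity is needed -/
theorem np2 (r : S 2 →* F2) (h : ¬ Chain r) : NoPinch (TT r) := by
  intro M _ η hker
  obtain ⟨v, hv⟩ := Np.nob (η (iot false zeta))
  by_cases mov : ∀ g, η g ∈ Asm.fixS (Tre.walls M) v
  · exact ⟨v.2, v.1, fun g => Np.fix v (mov g)⟩
  · exact absurd (Np.chain_of (Tre.walls M) (fun g x e => mul_eq_right.1 e) r η hker v hv mov) h

theorem noncomm (r : S 2 →* F2) : ∃ i g h, g * h * g⁻¹ * h⁻¹ ∉ TT r i := by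
  refine ⟨1, iot false (wd [1]), iot false (wd [2]), fun h => ?_⟩
  have h' : fold (MulEquiv.refl _) rfl (iot false (wd [1]) * iot false (wd [2]) *
    (iot false (wd [1]))⁻¹ * (iot false (wd [2]))⁻¹) = 1 := h
  simp only [map_mul, map_inv, Asm.fold_refl] at h'
  revert h'
  decide +kernel

theorem np : NpStmt := fun r => ⟨np2 r, noncomm r⟩

end Pool.Agent.MP_7ebdba_gt.sm
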