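import Mathlib.Analysis.Complex.Polynomial.Basic
import Mathlib.RingTheory.Etale.Weakly
import Pool.Agent.MP_7ebdba_gt.sm.m.Smo
import Pool.Agent.MP_7ebdba_gt.sm.p.Bridge
import Pool.Agent.MP_7ebdba_gt.ch.Main
import Pool.Agent.MP_7ebdba_gt.sm.p.Th
import Pool.Agent.MP_7ebdba_gt.sm.p.NoCh
import Pool.Agent.MP_7ebdba_gt.sm.Np
import Pool.Agent.MP_7ebdba_gt.sm.p.W1V2
import Pool.Agent.MP_7ebdba_gt.sm.p.Fin
import Pool.Agent.MP_7ebdba_gt.sm.p.Alg
import Pool.Agent.MP_7ebdba_gt.sm.p.Pg2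
import Pool.Agent.MP_7ebdba_gt.sm.p.Rel

-- ======== part 0: formerly Pool.Agent.MP_7ebdba_gt.sm.m.Asm
section MrgPart0

/-! Block M, row ASM: counting the critical points and assembling the model. -/

open scoped ContDiff Topology ComplexConjugate
open Set Complex Filter

noncomputable section

namespace Pool.Agent.MP_7ebdba_gt.sm.m

namespace AsmP

theorem morse_of {n g a b : ℕ} {es cs : List (E 5 → ℝ)} {k : E 5 → ℝ} {S0 S1 : Set S4} (hk : Sm k)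
    (h0 : S0.ncard = a + 1) (h1 : S1.ncard = b + 1) (e : b + 1 = a + g)
    (c0 : ∀ x ∈ S0, x ∈ Piece es [] ∧ (∀ c ∈ cs, c x < 0) ∧ Crit n es k 0 x)
    (c1 : ∀ x ∈ S1, x ∈ Piece es [] ∧ (∀ c ∈ cs, c x < 0) ∧ Crit n es k 1 x)
    (r : ∀ x ∈ Piece es cs, x ∉ S0 → x ∉ S1 → ∃ v, Tangent es x v ∧ 0 < fderiv ℝ k x v ∧
      ∀ c ∈ cs, c x = 0 → 0 < fderiv ℝ c x v) :
    ∃ C0 C1, Morse n es cs g k C0 C1 ∧ ∀ x, x ∉ S0 ∧ x ∉ S1 → x ∉ C0 ∧ x ∉ C1 := by
  have f0 : S0.Finite := finite_of_ncard_ne_zero (by omega)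
  have f1 : S1.Finite := finite_of_ncard_ne_zero (by omega)
  refine ⟨f0.toFinset, f1.toFinset, ⟨hk, ?_, by simpa using c0, by simpa using c1,
    by simpa using r⟩, by simp⟩
  rw [← ncard_eq_toFinset_card _ f0, ← ncard_eq_toFinset_card _ f1]
  omega

theorem roots {n : ℕ} (hn : 0 < n) {c : ℂ} (hc : c ≠ 0) : {o : ℂ | o ^ n = c}.ncard = n := by
  have h := isPrimitiveRoot_exp n hn.ne'
  have e : {o : ℂ | o ^ n = c} = (Polynomial.nthRoots n c).toFinset := by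
    ext o
    simp [Polynomial.mem_nthRoots hn]
  rw [e, ncard_coe_finset, Multiset.toFinset_card_of_nodup (h.nthRoots_nodup hc), h.card_nthRoots,
    if_pos (IsAlgClosed.exists_pow_nat_eq c hn)]

theorem ts0 : {t : ℝ | t ^ 2 = 0}.ncard = 1 := by simp

theorem ts {T : ℝ} (h : 0 < T) : {t : ℝ | t ^ 2 = T}.ncard = 2 := by
  have e : {t : ℝ | t ^ 2 = T} = {√T, -√T} := by
    ext t
    simp only [mem_ofPred_eq, mem_insert_iff, mem_singleton_iff, ← sq_eq_sq_iff_eq_or_eq_neg,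
      Real.sq_sqrt h.le]
  have := Real.sqrt_pos.2 h
  rw [e, ncard_pair (by linarith)]

theorem unit {n : ℕ} (hn : 0 < n) {o c : ℂ} (hc : ‖c‖ = 1) (h : o ^ n = c) : ‖o‖ = 1 :=
  (pow_eq_one_iff_of_nonneg (norm_nonneg o) hn.ne').1 (by rw [← norm_pow, h, hc])

theorem ph_sc {r : ℝ} (hr : 0 < r) (m : ℕ) {o : ℂ} (h : ‖o‖ = 1) : ph (r ^ m * o) = o := by
  rw [ph_mul, ph_pow, ph_pos hr, one_pow, one_mul, ph_unit h]

theorem card_PZ {n : ℕ} (hn : 0 < n) {c : ℂ} (hc : ‖c‖ = 1) (T : ℝ) :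
    (PZ n c T).ncard = n * {t : ℝ | t ^ 2 = T}.ncard := by
  have u : ∀ {o : ℂ}, o ^ n = c → (0 : ℂ) ≠ 0 ∨ o ≠ 0 := fun h => Or.inr (ct_ne0 (unit hn hc h))
  refine (ncard_congr (s := {o : ℂ | o ^ n = c} ×ˢ {t : ℝ | t ^ 2 = T}) (t := PZ n c T)
    (fun y hy => (⟨nrm 0 y.1 y.2, nrm_mem (u hy.1) _⟩ : S4))
    (fun y hy => ⟨y.1, y.2, hy.1, hy.2, rfl⟩) (fun y y' hy hy' e => ?_) ?_).symm.trans
    (by rw [ncard_prod, roots hn (ct_ne0 hc)])
  · have e := congrArg Subtype.val e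
    refine Prod.ext ?_ (by simpa using congrArg tt e)
    have := congrArg (fun x => ph (wc x)) e
    simpa only [wc_nrm, ph_sc (lam_pos (u hy.1) _) 3 (unit hn hc hy.1),
      ph_sc (lam_pos (u hy'.1) _) 3 (unit hn hc hy'.1)] using this
  · rintro x ⟨o, t, h1, h2, h3⟩
    exact ⟨(o, t), ⟨h1, h2⟩, Subtype.ext h3⟩

theorem card_PW {n : ℕ} (hn : 0 < n) {c : ℂ} (hc : ‖c‖ = 1) (T : ℝ) :
    (PW n c T).ncard = n * {t : ℝ | t ^ 2 = T}.ncard := by
  have u : ∀ {o : ℂ}, o ^ n = c → o ≠ 0 ∨ (0 : ℂ) ≠ 0 := fun h => Or.inl (ct_ne0 (unit hn hc h))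
  refine (ncard_congr (s := {o : ℂ | o ^ n = c} ×ˢ {t : ℝ | t ^ 2 = T}) (t := PW n c T)
    (fun y hy => (⟨nrm y.1 0 y.2, nrm_mem (u hy.1) _⟩ : S4))
    (fun y hy => ⟨y.1, y.2, hy.1, hy.2, rfl⟩) (fun y y' hy hy' e => ?_) ?_).symm.trans
    (by rw [ncard_prod, roots hn (ct_ne0 hc)])
  · have e := congrArg Subtype.val e
    refine Prod.ext ?_ (by simpa using congrArg tt e)
    have := congrArg (fun x => ph (zc x)) e
    simpa only [zc_nrm, ph_sc (lam_pos (u hy.1) _) 2 (unit hn hc hy.1),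
      ph_sc (lam_pos (u hy'.1) _) 2 (unit hn hc hy'.1)] using this
  · rintro x ⟨o, t, h1, h2, h3⟩
    exact ⟨(o, t), ⟨h1, h2⟩, Subtype.ext h3⟩

theorem card_pole : {x : S4 | sc x ^ 2 = 1}.ncard = 2 := by
  refine (ncard_congr (s := {x : S4 | sc x ^ 2 = 1}) (fun x _ => sc x) (fun _ h => h) (fun x y hx hy e => Subtype.ext ?_)
    fun t h => ⟨⟨mk5 0 0 t, mem_sph (by simpa using h)⟩, h, rfl⟩).trans (ts one_pos)
  have k : ∀ x : S4, sc x ^ 2 = 1 → zc x = 0 ∧ wc x = 0 := fun x h => by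
    by_contra c
    have := sc_lt (not_and_or.1 c)
    linarith
  exact ext5 ((k x hx).1.trans (k y hy).1.symm) ((k x hx).2.trans (k y hy).2.symm) e

theorem card_ct {a : ℂ} (ha : ‖a‖ = 1) (c : ℂ) : {x : S4 | ct a c 0 = x}.ncard = 1 :=
  ncard_eq_one.2 ⟨⟨_, ct_mem ha c 0⟩, by
    ext x
    simp [Subtype.ext_iff, eq_comm]⟩

theorem card_un {n : ℕ} {a b c : ℂ} {T : ℝ} (ha : ‖a‖ = 1) (hc : ‖c‖ < 1 / 8)
    (h : (PW n b T).ncard = 6) : (PW n b T ∪ {x : S4 | ct a c 0 = x}).ncard = 6 + 1 := by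
  rw [ncard_union_eq ?_ (finite_of_ncard_ne_zero (by omega))
    (finite_of_ncard_ne_zero (by rw [card_ct ha]; omega)), h, card_ct ha]
  refine disjoint_left.2 ?_
  rintro x ⟨o, t, -, -, h1⟩ h2
  exact (near_ct ha hc 0).w_ne (by rw [show ct a c 0 = x from h2, ← h1, wc_nrm, mul_zero])

theorem shell {n m : ℕ} (hn : 0 < n) (hm : 0 < m) {b c : ℂ} (hb : ‖b‖ = 1) (hc : ‖c‖ = 1) {x : S4}
    (hx : x ∈ VV ∩ WW) : x ∉ PZ n b 0 ∧ x ∉ PW m c 0 := by
  have h := (mem_shell.1 hx).2.1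
  constructor <;> rintro ⟨o, t, h1, h2, h3⟩
  · rw [← h3, lev_nrm (Or.inr (ct_ne0 (unit hn hb h1))), h2] at h
    norm_num [xf] at h
  · have := unit hm hc h1
    rw [← h3, lev_nrm (Or.inl (ct_ne0 this)), h2] at h
    norm_num [xf, pf, normSq_eq_norm_sq, this] at h

variable {P : Prof} {σ : ℝ} {x : S4}

theorem sA (S : Smo P) : Sm (AA P) := fun x => (S.sH x).sub contDiffAt_const

theorem dA (v : E 5) : fderiv ℝ (AA P) x v = fderiv ℝ (HH P) x v := by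
  rw [show AA P = fun y => HH P y - 6 from rfl, fderiv_sub_const]

theorem sI (h : σ ^ 2 = 1) : ‖(σ * I : ℂ)‖ = 1 := by
  rcases sq_eq_sq_iff_eq_or_eq_neg.1 (h.trans (one_pow 2).symm) with rfl | rfl <;> simp

theorem dc (S : Smo P) {c : E 5 → ℝ} (hc : ∀ y, c y = -σ * BB P y) (v : E 5) :
    fderiv ℝ c x v = -σ * fderiv ℝ (BB P) x v := by
  rw [funext hc, fderiv_const_mul (S.sB.diff x)]
  rfl

theorem moX (S : Smo P) (C : Cases P) (Z : CZ P) (W : CW P) (h : σ ^ 2 = 1) {c : E 5 → ℝ}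
    (hc : ∀ y, c y = -σ * BB P y) : MoI 4 [] [AA P, c] 2 := by
  have s0 : σ ≠ 0 := fun e => by simp [e] at h
  have key : ∀ {i : ℕ} {x : S4}, AA P x < 0 ∧ 0 < σ * BB P x ∧
      Crit 4 [] (fun y => HH P y - σ * BB P y) i x → x ∈ Piece [] [] ∧
      (∀ d ∈ [AA P, c], d x < 0) ∧ Crit 4 [] (fun y => HH P y - σ * BB P y) i x :=
    fun a => ⟨by simp [Piece], by simpa [hc] using ⟨a.1, a.2.1⟩, a.2.2⟩
  obtain ⟨C0, C1, m, q⟩ := morse_of (n := 4) (g := 2) (a := 1) (b := 2) (es := []) (cs := [AA P, c])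
    (k := fun y => HH P y - σ * BB P y) (S0 := PZ 2 (-(σ * I)) 0) (S1 := PW 3 (σ * I) 0)
    (fun x => (S.sH x).sub (contDiffAt_const.mul (S.sB x)))
    (by simp [card_PZ two_pos ((norm_neg _).trans (sI h))]) (by simp [card_PW three_pos (sI h)])
    rfl (fun x hx => key (Z.x σ h x hx)) (fun x hx => key (W.x σ h x hx)) fun x hx h0 h1 => by
      obtain ⟨a1, a2⟩ : AA P x ≤ 0 ∧ 0 ≤ σ * BB P x := by simpa [Piece, hc] using hx
      obtain ⟨u, b, g, ⟨v, v0, v1, v2, -⟩, b1, b2, b3⟩ := C.x σ h x a1 a2 h0 h1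
      refine ⟨v, v0, ?_, ?_⟩
      · rw [fderiv_fun_sub (S.sH.diff x) ((S.sB.diff x).const_mul σ), fderiv_const_mul (S.sB.diff x)]
        simpa [v1, v2] using b1
      · simp only [List.forall_mem_cons, List.not_mem_nil, false_imp_iff, implies_true, and_true,
          dA, dc S hc, hc, v1, v2]
        exact ⟨b2, fun e => by linarith [b3 ((mul_eq_zero.1 e).resolve_left (neg_ne_zero.2 s0))]⟩
  exact ⟨_, C0, C1, m, fun x hx y hy e1 e2 => by
    simp only [S.iH x hx y hy e1 e2, S.iB x hx y hy e1 e2],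
    fun x hx => q x (shell two_pos three_pos (by rw [norm_neg, sI h]) (sI h) hx)⟩

theorem moW (S : Smo P) (C : Cases P) (Z : CZ P) (W : CW P) (T : CritT P) (h : σ ^ 2 = 1)
    {c : E 5 → ℝ} (hc : ∀ y, c y = -σ * BB P y) : Mo 3 [AA P] [c] 4 := by
  have s0 : σ ≠ 0 := fun e => by simp [e] at h
  have key : ∀ {i : ℕ} {x : S4}, AA P x = 0 ∧ 0 < σ * BB P x ∧
      Crit 3 [AA P] (fun y => -σ * BW P y) i x → x ∈ Piece [AA P] [] ∧
      (∀ d ∈ [c], d x < 0) ∧ Crit 3 [AA P] (fun y => -σ * BW P y) i x :=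
    fun a => ⟨by simpa [Piece] using a.1, by simpa [hc] using a.2.1, a.2.2⟩
  have hs : ‖(σ * √P.ε * I : ℂ)‖ < 1 / 8 := by
    rw [mul_right_comm, norm_mul, sI h, one_mul, norm_real, Real.norm_of_nonneg (Real.sqrt_nonneg _),
      Real.sqrt_lt' (by norm_num)]
    linarith [P.ε_lt]
  obtain ⟨C0, C1, m, -⟩ := morse_of (n := 3) (g := 4) (a := 3) (b := 6) (es := [AA P]) (cs := [c])
    (k := fun y => -σ * BW P y) (S0 := PZ 2 (-(σ * I)) 6)
    (S1 := PW 3 (σ * I) 5 ∪ {x : S4 | ct 1 (σ * √P.ε * I) 0 = x})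
    (fun x => contDiffAt_const.mul (S.sW x))
    (by rw [card_PZ two_pos (by rw [norm_neg, sI h]), ts (by norm_num)]; rfl)
    (card_un norm_one hs (by rw [card_PW three_pos (sI h), ts (by norm_num)]; rfl))
    (by norm_num) (fun x hx => key (Z.w σ h x hx))
    (fun x hx => key (hx.elim (W.w σ h x) (T.w σ h x))) fun x hx h0 h1 => by
      obtain ⟨a1, a2⟩ : AA P x = 0 ∧ 0 ≤ σ * BB P x := by simpa [Piece, hc] using hx
      obtain ⟨b, g, ⟨v, v0, v1, v2, v3⟩, b1, b2⟩ :=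
        C.w σ h x a1 a2 h0 (fun e => h1 (Or.inl e)) fun e => h1 (Or.inr e)
      refine ⟨v, ⟨v0.1, by simpa [dA] using v1⟩, ?_, ?_⟩
      · rw [fderiv_const_mul (S.sW.diff x)]
        simpa [v3] using b1
      · simp only [List.forall_mem_cons, List.not_mem_nil, false_imp_iff, implies_true, and_true,
          dc S hc, hc, v2]
        exact fun e => by linarith [b2 ((mul_eq_zero.1 e).resolve_left (neg_ne_zero.2 s0))]
  exact ⟨_, C0, C1, m⟩

theorem moH (S : Smo P) (C : Cases P) (Z : CZ P) (W : CW P) (T : CritT P) :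
    MoI 3 [BB P] [AA P] 4 := by
  have key : ∀ {i : ℕ} {x : S4}, BB P x = 0 ∧ AA P x < 0 ∧ Crit 3 [BB P] (HH P) i x →
      x ∈ Piece [BB P] [] ∧ (∀ d ∈ [AA P], d x < 0) ∧ Crit 3 [BB P] (HH P) i x :=
    fun a => ⟨by simpa [Piece] using a.1, by simpa using a.2.1, a.2.2⟩
  obtain ⟨C0, C1, m, q⟩ := morse_of (n := 3) (g := 4) (a := 3) (b := 6) (es := [BB P])
    (cs := [AA P]) (k := HH P) (S0 := PZ 4 1 0) (S1 := PW 6 1 0 ∪ {x : S4 | ct (-1) 0 0 = x}) S.sH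
    (by rw [card_PZ four_pos norm_one, ts0]; rfl)
    (card_un (by simp) (by simp) (by rw [card_PW (by norm_num) norm_one, ts0]))
    (by norm_num) (fun x hx => key (Z.h x hx)) (fun x hx => key (hx.elim (W.h x) (T.h x)))
    fun x hx h0 h1 => by
      obtain ⟨a1, a2⟩ : BB P x = 0 ∧ AA P x ≤ 0 := by simpa [Piece] using hx
      obtain ⟨u, g, b1, v, v0, v1, v2, -⟩ :=
        C.h x a2 a1 h0 (fun e => h1 (Or.inl e)) fun e => h1 (Or.inr e)
      exact ⟨v, ⟨v0.1, by simpa using v2⟩, v1 ▸ b1, by simpa [dA, v1] using fun _ => b1⟩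
  refine ⟨_, C0, C1, m, S.iH, fun x hx => q x ?_⟩
  have a := shell four_pos (m := 6) (by norm_num) norm_one norm_one hx
  exact ⟨a.1, fun e => e.elim a.2 fun e => hx.2.1
    (by rw [← show ct (-1) 0 0 = x from e, pp_ct_eq (by simp)])⟩

theorem moO (S : Smo P) (C : Cases P) (T : CritT P) : Mo 4 [] [-AA P] 0 := by
  have key : ∀ {i : ℕ} {x : S4}, 0 < AA P x ∧ Crit 4 [] (fun y => -HH P y) i x →
      x ∈ Piece [] [] ∧ (∀ d ∈ [-AA P], d x < 0) ∧ Crit 4 [] (fun y => -HH P y) i x :=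
    fun a => ⟨by simp [Piece], by simpa using a.1, a.2⟩
  obtain ⟨C0, C1, m, -⟩ := morse_of (n := 4) (g := 0) (a := 1) (b := 0) (es := []) (cs := [-AA P])
    (k := fun y => -HH P y) (S0 := {x : S4 | sc x ^ 2 = 1}) (S1 := {x : S4 | ct 1 0 0 = x})
    (fun x => (S.sH x).neg) card_pole (card_ct norm_one 0) rfl (fun x hx => key (T.pole x hx))
    (fun x hx => key (T.o x hx)) fun x hx h0 h1 => by
      obtain ⟨v, v0, v1⟩ := C.o x (by simpa [Piece] using hx) h0 h1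
      exact ⟨v, v0, by simpa [fderiv_fun_neg] using v1, by simpa [fderiv_neg, dA] using fun _ => v1⟩
  exact ⟨_, C0, C1, m⟩

end AsmP

open AsmP in
theorem asm : AsmStmt := fun P _ S C Z W T con =>
  { sA := sA S
    sB := S.sB
    iA := fun x hx y hy e1 e2 => by simp only [AA, S.iH x hx y hy e1 e2]
    iB := S.iB
    far := S.far
    t1 := fun x h => by
      obtain ⟨v, v0, v1⟩ := C.o x h.ge (fun e => (T.pole x e).1.ne' h) fun e => (T.o x e).1.ne' h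
      exact ⟨v, v0, by rw [dA]; exact v1.ne⟩
    t2 := fun x h h' => by
      obtain ⟨b, g, b0, v, v0, -, v2, -⟩ := C.tr x h h'
      exact ⟨v, v0, v2 ▸ b0⟩
    t3 := fun x h h' => by
      obtain ⟨b, g, b0, v, v0, v1, v2, -⟩ := C.tr x h.le h'
      exact ⟨v, ⟨v0.1, by simpa [dA] using v1⟩, v2 ▸ b0⟩
    con := con
    x0 := moO S C T
    x1 := moX S C Z W (σ := 1) (by norm_num) (by simp)
    x2 := moX S C Z W (σ := -1) (by norm_num) (by simp)
    h0 := moW S C Z W T (σ := 1) (by norm_num) (by simp)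
    h1 := moH S C Z W T
    h2 := moW S C Z W T (σ := -1) (by norm_num) (by simp) }

end Pool.Agent.MP_7ebdba_gt.sm.m

end
end MrgPart0

-- ======== part 1: formerly Pool.Agent.MP_7ebdba_gt.sm.m.Core
section MrgPart1

/-! The core of the model is connected. -/

open scoped ContDiff Topology ComplexConjugate
open Set Filter Complex

noncomputable section

namespace Pool.Agent.MP_7ebdba_gt.sm.cn

open mf

variable (P : Prof)

/-- the cone over the core -/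
def Y : Set (ℂ × ℂ × ℝ) :=
  {y | (y.1 ≠ 0 ∨ y.2.1 ≠ 0) ∧ (pf y.1 y.2.1).im = 0 ∧ y.2.2 ^ 2 = 6 - mf P y.1 y.2.1}

def wf (y : ℂ × ℝ) : ℂ := y.1 ^ 3 * Complex.sqrt (1 - y.2 / ph y.1 ^ 6)

def ψ (σ : ℝ) (y : ℂ × ℝ) : ℂ × ℂ × ℝ := (y.1 ^ 2, wf y, σ * √(g P y))

theorem wf_spec {a : ℂ} {c : ℝ} (ha : a ≠ 0) (hc : c ^ 2 < 1 / 64) :
    pf (a ^ 2) (wf (a, c)) = (‖a‖ ^ 6 * c : ℝ) ∧ tf (a ^ 2) (wf (a, c)) = c ^ 2 ∧
      Near (a ^ 2) (wf (a, c)) ∧ af (a ^ 2) (wf (a, c)) = ph a := by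
  have h0 := norm_pos_iff.2 ha
  have h1 : (‖a‖ : ℂ) ≠ 0 := ofReal_ne_zero.2 h0.ne'
  have e1 : pf (a ^ 2) (wf (a, c)) = (‖a‖ ^ 6 * c : ℝ) := by
    simp only [pf, wf, mul_pow, mf.csq, ph]
    push_cast; field_simp; ring
  have e2 : tf (a ^ 2) (wf (a, c)) = c ^ 2 := by
    rw [tf, e1, normSq_ofReal, map_pow, normSq_eq_norm_sq]; field_simp
  have e3 : Near (a ^ 2) (wf (a, c)) := (near_iff_tf (pow_ne_zero 2 ha)).2 (e2 ▸ hc)
  refine ⟨e1, e2, e3, ?_⟩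
  have e4 : wf (a, c) ^ 2 / (a ^ 2) ^ 3 = 1 - c / ph a ^ 6 := by
    simp only [wf, mul_pow, mf.csq]; field_simp
  have e5 := near_sqrt e3
  rw [af, norm_pow, Real.sqrt_sq h0.le, ph]
  rw [e4] at e5 ⊢
  simp only [wf]
  field_simp

theorem ψ_mem {σ : ℝ} (hσ : σ ^ 2 = 1) {y : ℂ × ℝ} (h : y ∈ N P) : ψ P σ y ∈ Y P := by
  obtain ⟨e1, e2, e3, e4⟩ := wf_spec h.1 h.2.1
  refine ⟨Or.inl (pow_ne_zero 2 h.1), by simp only [ψ, e1, ofReal_im], ?_⟩
  simp only [ψ]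
  rw [mf_near P e3, e2, e4, mul_pow, hσ, Real.sq_sqrt h.2.2, g]
  ring

theorem ψ_cont (σ : ℝ) : ContinuousOn (ψ P σ) (N P) := fun y h => by
  have c1 : ContinuousAt (fun y : ℂ × ℝ => ph y.1) y :=
    (cda_ph (a := Prod.fst) contDiffAt_fst h.1).continuousAt
  have c2 := P.χ_sm.continuous
  have c3 : ContinuousAt (fun y : ℂ × ℝ => 1 - y.2 / ph y.1 ^ 6) y :=
    continuousAt_const.sub (ContinuousAt.div (by fun_prop) (c1.pow 6) (pow_ne_zero _ (ph_ne h.1)))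
  have c4 : (1 - y.2 / ph y.1 ^ 6 : ℂ) ∈ slitPlane := slit_of_lt (by
    rw [norm_div, norm_pow, norm_ph h.1, one_pow, div_one, norm_real, Real.norm_eq_abs]
    exact abs_lt.2 ⟨by nlinarith [h.2.1], by nlinarith [h.2.1]⟩)
  have c5 : ContinuousAt wf y := (continuousAt_fst.pow 3).mul
    ((hasDerivAt_sqrt c4).continuousAt.comp (f := fun y : ℂ × ℝ => 1 - y.2 / ph y.1 ^ 6) c3)
  have c6 : ContinuousAt (g P) y := by unfold g; fun_prop
  exact (ContinuousAt.prodMk (by fun_prop) (c5.prodMk (by fun_prop))).continuousWithinAt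

theorem sgn {t r : ℝ} (h : t ^ 2 = r) : ∃ σ : ℝ, (σ = 1 ∨ σ = -1) ∧ t = σ * √r := by
  rw [← h, Real.sqrt_sq_eq_abs]
  rcases le_total 0 t with a | a
  · exact ⟨1, Or.inl rfl, by simp [abs_of_nonneg a]⟩
  · exact ⟨-1, Or.inr rfl, by simp [abs_of_nonpos a]⟩

/-- the part near the knot -/
def D : Set (ℂ × ℂ × ℝ) := ψ P 1 '' N P ∪ ψ P (-1) '' N P

theorem I_mem : ((I : ℂ), (0 : ℝ)) ∈ N P := ⟨I_ne_zero, by norm_num, by simp [g, ph]⟩

theorem D_conn : IsConnected (D P) :=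
  ⟨⟨_, Or.inl ⟨_, I_mem P, rfl⟩⟩, IsPreconnected.union (ψ P 1 (I, 0)) ⟨_, I_mem P, rfl⟩
    ⟨_, I_mem P, by simp [ψ, g, ph]⟩ ((N_conn P).image _ (ψ_cont P _))
    ((N_conn P).image _ (ψ_cont P _))⟩

theorem D_sub : D P ⊆ Y P := by
  rintro _ (⟨y, h, rfl⟩ | ⟨y, h, rfl⟩) <;> exact ψ_mem P (by norm_num) h

theorem mem_D {y : ℂ × ℂ × ℝ} (h : y ∈ Y P) (hn : Near y.1 y.2.1) : y ∈ D P := by
  obtain ⟨z, w, t⟩ := y
  obtain ⟨-, h2, h3⟩ := h
  simp only at hn h2 h3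
  obtain ⟨r1, r2⟩ := root hn
  have hz := near_z hn
  have h0 := norm_pos_iff.2 hz
  have hs := Real.sqrt_pos.2 h0
  have e1 : ph (√‖z‖ * af z w) = af z w := by rw [ph_mul, ph_pos hs, one_mul, ph_unit (norm_af hn)]
  have e2 : (((cf z w).re : ℝ) : ℂ) = cf z w :=
    Complex.ext rfl (by simp only [ofReal_im, cf, div_ofReal_im, h2, zero_div])
  have e3 : (cf z w).re ^ 2 = tf z w := by rw [← normSq_cf, ← e2, normSq_ofReal, ofReal_re, sq]
  have e4 : z ^ 3 = (‖z‖ ^ 3 : ℝ) * af z w ^ 6 := by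
    conv_lhs => rw [← r1, mul_pow, ← ofReal_pow, Real.sq_sqrt h0.le]
    push_cast; ring
  have e5 : wf (√‖z‖ * af z w, (cf z w).re) = w := by
    rw [wf, e1, e2, cf, div_div, ← e4, ← ratio hz, r2]
  have e6 : g P (√‖z‖ * af z w, (cf z w).re) = t ^ 2 := by
    rw [g, e1, e3, h3, mf_near P hn]; ring
  have hN : (√‖z‖ * af z w, (cf z w).re) ∈ N P :=
    ⟨fun a => hz (by rw [← r1]; exact pow_eq_zero_iff two_ne_zero |>.2 a), e3 ▸ mf.near_tf hn,
      e6 ▸ sq_nonneg t⟩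
  obtain ⟨σ, rfl | rfl, b⟩ := sgn e6.symm
  · exact Or.inl ⟨_, hN, by simp only [ψ, r1, e5, ← b]⟩
  · exact Or.inr ⟨_, hN, by simp only [ψ, r1, e5, ← b]⟩

theorem K_mf {p : ℂ} (hp : p ≠ 0) {y : ℂ × ℂ} (h : y ∈ K p) :
    mf P y.1 y.2 = P.F (xf y.1 y.2) ∧ mf P y.1 y.2 ≤ 6 := by
  have h1 := h.2
  have h2 := normSq_pos.2 hp
  rw [← h.1] at h1 h2
  have e := mf_eq_F P (z := y.1) (w := y.2) (by linarith)
  refine ⟨e, ?_⟩
  by_cases hn : Near y.1 y.2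
  · rw [e, P.F_hi _ ((near_iff (h.1 ▸ hp)).1 hn).le, xf_cube, inv_inv]
    linarith [tf_nonneg y.1 y.2]
  · linarith [(mf_far_mem P hn).2]

theorem Y_conn : IsConnected (Y P) := by
  obtain ⟨y₀, h₀⟩ := (D_conn P).nonempty
  refine ⟨⟨y₀, D_sub P h₀⟩, isPreconnected_of_forall y₀ fun y hy => ?_⟩
  by_cases hn : Near y.1 y.2.1
  · exact ⟨D P, D_sub P, h₀, mem_D P hy hn, (D_conn P).isPreconnected⟩
  obtain ⟨z, w, t⟩ := y
  have hp := far_pf hn hy.1
  have hK : (z, w) ∈ K (pf z w) :=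
    ⟨rfl, by have := not_lt.1 hn; have := normSq_nonneg (pf z w); simp only at *; linarith⟩
  obtain ⟨σ, hσ, b⟩ := sgn hy.2.2
  have hσ2 : σ ^ 2 = 1 := by rcases hσ with rfl | rfl <;> norm_num
  let f : ℂ × ℂ → ℂ × ℂ × ℝ := fun y => (y.1, y.2, σ * √(6 - P.F (xf y.1 y.2)))
  have f1 : ∀ y ∈ K (pf z w), f y ∈ Y P := fun y h =>
    ⟨zw_ne (h.1 ▸ hp), by simp only [f, h.1]; exact hy.2.1, by
      simp only [f]
      rw [mul_pow, hσ2, one_mul, ← (K_mf P hp h).1, Real.sq_sqrt (sub_nonneg.2 (K_mf P hp h).2)]⟩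
  have f2 : ContinuousOn f (K (pf z w)) := fun y h => by
    have c1 := (cda_xf (y := y) contDiffAt_fst contDiffAt_snd (h.1 ▸ hp)).continuousAt
    have c2 := P.F_sm.continuous
    exact ContinuousAt.continuousWithinAt (by unfold f; fun_prop)
  have sub := connectedComponentIn_subset (K (pf z w)) (z, w)
  obtain ⟨y', a1, a2⟩ := K_top hp hK
  refine ⟨f '' connectedComponentIn (K (pf z w)) (z, w) ∪ D P,
    union_subset (image_subset_iff.2 fun y h => f1 y (sub h)) (D_sub P), Or.inr h₀,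
    Or.inl ⟨_, mem_connectedComponentIn hK, ?_⟩, IsPreconnected.union (f y') ⟨_, a1, rfl⟩
      (mem_D P (f1 _ (sub a1)) ?_) (isPreconnected_connectedComponentIn.image _ (f2.mono sub))
      (D_conn P).isPreconnected⟩
  · simp only [f, ← (K_mf P hp hK).1]
    exact congrArg (fun s => (z, w, s)) b.symm
  · have := normSq_pos.2 hp
    simp only [f, Near, (sub a1).1, a2]
    linarith

theorem con : IsConnected {x : S4 | AA P x = 0 ∧ BB P x = 0} := by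
  have hβ : ∀ X ≤ (4 : ℝ), 0 < P.β X := fun X _ => P.β_pos X
  have key : Subtype.val '' {x : S4 | AA P x = 0 ∧ BB P x = 0} =
      (fun y : ℂ × ℂ × ℝ => nrm y.1 y.2.1 y.2.2) '' Y P := by
    apply Subset.antisymm
    · rintro _ ⟨x, ⟨h1, h2⟩, rfl⟩
      have a := lo_of_AA P h1.le
      have b := sph x
      have c : zc x ≠ 0 ∨ wc x ≠ 0 := by
        by_contra d
        push Not at d
        simp only [d.1, d.2, map_zero] at b
        linarith
      rw [BB, P.η_lo _ a.le, one_mul, bf_zero_iff hβ] at h2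
      rw [AA, HH_lo P a.le] at h1
      exact ⟨(zc x, wc x, tt x), ⟨c, h2, by simp only; linarith⟩, nrm_self c⟩
    · rintro _ ⟨⟨z, w, t⟩, ⟨h1, h2, h3⟩, rfl⟩
      simp only at h1 h2 h3 ⊢
      have l : sc (nrm z w t) ^ 2 ≤ 8 / 9 := (lo_iff (by rw [one_sub_sc_nrm]; positivity)).2 (by
        rw [tt_nrm]; linarith [(mf_mem P z w).1])
      refine ⟨⟨nrm z w t, nrm_mem h1 t⟩, ⟨?_, ?_⟩, rfl⟩
      · rw [AA, HH_lo P l, tt_nrm, mf_nrm h1]
        linarith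
      · rw [BB, P.η_lo _ l, one_mul, bf_nrm h1, bf_zero_iff hβ, h2]
  have hc : IsConnected ((fun y : ℂ × ℂ × ℝ => nrm y.1 y.2.1 y.2.2) '' Y P) :=
    (Y_conn P).image _ fun y hy => (cda_nrm contDiffAt_fst contDiffAt_snd.fst contDiffAt_snd.snd
      hy.1).continuousAt.continuousWithinAt
  rw [← key] at hc
  exact ⟨hc.nonempty.of_image,
    Topology.IsInducing.subtypeVal.isPreconnected_image.1 hc.isPreconnected⟩

end Pool.Agent.MP_7ebdba_gt.sm.cn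

theorem Pool.Agent.MP_7ebdba_gt.sm.m.core : Pool.Agent.MP_7ebdba_gt.sm.m.CoreStmt :=
  fun P _ _ => Pool.Agent.MP_7ebdba_gt.sm.cn.con P

end
end MrgPart1

-- ======== part 2: formerly Pool.Agent.MP_7ebdba_gt.sm.m.Ct
section MrgPart2

/-! Block M, row CT: the poles and the critical points near the knot. -/

open scoped ContDiff Topology ComplexConjugate
open Set Complex Filter

noncomputable section

namespace Pool.Agent.MP_7ebdba_gt.sm.m

namespace Ct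

variable {n : ℕ}

theorem jet_val {f : E n → ℝ} {v : ℝ} {d : Fin n → ℝ} (h : Jet f v d) : f 0 = v := by
  simpa [qf, sub_eq_zero] using (Asymptotics.isLittleO_iff.1 h one_pos).self_of_nhds

theorem sig1 {d : Fin n → ℝ} (j0 : Fin n) (h0 : d j0 < 0) (h : ∀ j, j ≠ j0 → 0 < d j) :
    (∀ j, d j ≠ 0) ∧ {j | d j < 0}.ncard = 1 := by
  refine ⟨fun j => ?_, ncard_eq_one.2 ⟨j0, eq_singleton_iff_unique_mem.2 ⟨h0, fun j hj => ?_⟩⟩⟩
  · by_cases e : j = j0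
    · exact e ▸ h0.ne
    · exact (h j e).ne'
  · by_contra e
    exact (h j e).not_gt hj

theorem cdj (j : Fin n) : ContDiffAt ℝ ∞ (fun y : E n => y j) 0 :=
  (EuclideanSpace.proj (𝕜 := ℝ) j).contDiff.contDiffAt

theorem inj {F : Type} [NormedAddCommGroup F] [NormedSpace ℝ F] {φ : E n → F} {g : F → Fin n → ℝ}
    (h1 : ContDiffAt ℝ ∞ φ 0) (h2 : DifferentiableAt ℝ g (φ 0))
    (h3 : ∀ᶠ y in 𝓝 0, ∀ j, g (φ y) j = y j) : Function.Injective (fderiv ℝ φ 0) :=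
  inj_of (L := (EuclideanSpace.equiv (Fin n) ℝ).toContinuousLinearMap) (cd1 h1) h2
    ((EuclideanSpace.equiv (Fin n) ℝ).hasFDerivAt.congr_of_eventuallyEq
      (h3.mono fun _ a => funext a)) (EuclideanSpace.equiv (Fin n) ℝ).injective

/-- critical points in the chart `ct` -/
theorem crit_ct {i : ℕ} {es : List (E 5 → ℝ)} {k : E 5 → ℝ} {x : S4} {a c : E n → ℂ}
    {t : E n → ℝ} {g : ℂ × ℂ × ℝ → Fin n → ℝ} {v : ℝ} {d : Fin n → ℝ} (ha : ContDiffAt ℝ ∞ a 0)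
    (hc : ContDiffAt ℝ ∞ c 0) (ht : ContDiffAt ℝ ∞ t 0)
    (h1 : ∀ᶠ y in 𝓝 0, ‖a y‖ = 1 ∧ ‖c y‖ < 1 / 8) (hx : ct (a 0) (c 0) (t 0) = x)
    (hg : Differentiable ℝ g) (hl : ∀ y j, g (a y, c y, t y) j = y j)
    (he : ∀ᶠ y in 𝓝 0, ∀ e ∈ es, e (ct (a y) (c y) (t y)) = 0)
    (hd : (∀ j, d j ≠ 0) ∧ {j | d j < 0}.ncard = i)
    (hj : Jet (fun y => k (ct (a y) (c y) (t y))) v d) : Crit n es k i x := by
  obtain ⟨u1, u2⟩ := h1.self_of_nhds
  have s := cda_ct ha hc ht u1 u2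
  have nr := near_ct u1 u2 (t 0)
  refine ⟨_, d, s, hx, ?_, (h1.and he).mono fun y b => ⟨norm_ct b.1.1 _ _, b.2⟩, hd.1, hd.2,
    hj.cast ((jet_val hj).symm.trans (congrArg k hx)) fun _ => rfl⟩
  refine inj (g := fun p => g (af (zc p) (wc p), cf (zc p) (wc p), tt p)) s
    ((hg _).comp _ (cd1 ((cda_af cd_zc.contDiffAt cd_wc.contDiffAt nr).prodMk
      ((cda_cf cd_zc.contDiffAt cd_wc.contDiffAt nr.z_ne).prodMk (cd_tt ?_))))) ?_
  · rw [ct, one_sub_sc_nrm]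
    positivity
  · exact h1.mono fun y b j => by rw [af_ct b.1 b.2, cf_ct b.1, tt_ct, hl]

/-- a unit with given imaginary part -/
def eu (u : ℝ) : ℂ := ⟨√(1 - u ^ 2), u⟩

theorem eu_zero : eu 0 = 1 := by simp [eu, Complex.ext_iff]

theorem cd_rt (j : Fin n) : ContDiffAt ℝ ∞ (fun y : E n => √(1 - y j ^ 2)) 0 :=
  (contDiffAt_const.sub ((cdj j).pow 2)).sqrt (by simp)

theorem cd_eu (j : Fin n) : ContDiffAt ℝ ∞ (fun y : E n => eu (y j)) 0 := cd_mk (cd_rt j) (cdj j)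

theorem ev_lt {f : E n → ℝ} (h : ContDiffAt ℝ ∞ f 0) {b : ℝ} (hb : f 0 < b) :
    ∀ᶠ y in 𝓝 0, f y < b := h.continuousAt.eventually_lt_const hb

theorem ev_eu (j : Fin n) : ∀ᶠ y : E n in 𝓝 0, ‖eu (y j)‖ = 1 :=
  (ev_lt ((cdj j).pow 2) (b := 1) (by simp)).mono fun y h => by
    rw [norm_def, eu, normSq_mk, Real.mul_self_sqrt (sub_nonneg.2 h.le), Real.sqrt_eq_one]
    ring

theorem jet_rt (j : Fin n) :
    Jet (fun y : E n => √(1 - y j ^ 2)) 1 (Pi.single j (-(1 / 2))) := by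
  refine (((Jet.const 1).sub (Jet.sq j)).comp (Real.hasDerivAt_sqrt (by simp))).cast (by simp)
    fun i => ?_
  by_cases h : i = j <;> simp [h]

theorem ev_c {c : E n → ℂ} (hc : ContDiffAt ℝ ∞ c 0) (h : normSq (c 0) < 1 / 125) :
    ∀ᶠ y in 𝓝 0, ‖c y‖ < 1 / 8 ∧ normSq (c y) ≤ 1 / 125 :=
  (ev_lt (cda_normSq hc) h).mono fun y a => ⟨by
    rw [normSq_eq_norm_sq] at a
    nlinarith [norm_nonneg (c y)], a.le⟩

theorem ev_t (j : Fin n) : ∀ᶠ y : E n in 𝓝 0, y j ^ 2 ≤ 8 :=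
  (ev_lt ((cdj j).pow 2) (b := 8) (by simp)).mono fun _ => le_of_lt

variable {P : Prof} (W : Wt P) {x : S4}
include W

theorem o (hx : ct 1 0 0 = x) : 0 < AA P x ∧ Crit 4 [] (fun y => -HH P y) 1 x := by
  have p := P.ε_pos
  have hc : ContDiffAt ℝ ∞ (fun y : E 4 => (⟨y 0, y 1⟩ : ℂ)) 0 := cd_mk (cdj 0) (cdj 1)
  have e := (ev_eu (2 : Fin 4)).and (ev_c hc (by simp [normSq_mk]))
  constructor
  · rw [AA, ← hx, (W.nv 1 0 0 (by simp) (by simp) (by simp)).1]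
    simpa [P.χ_lo 0 (by norm_num)] using p
  refine crit_ct (g := fun q => ![q.2.1.re, q.2.1.im, q.1.im, q.2.2]) (cd_eu 2) hc (cdj 3)
    (e.mono fun _ a => ⟨a.1, a.2.1⟩) ((congrArg (ct · 0 0) eu_zero).trans hx)
    (differentiable_pi.2 fun j => by fin_cases j <;> simp <;> fun_prop)
    (fun y j => by fin_cases j <;> rfl) (by simp) (sig1 3 ?_ ?_)
    ((((((Jet.const 6).sub ((Jet.sq 0).add (Jet.sq 1))).add ((jet_rt 2).smul P.ε)).add
      (Jet.sq 3)).neg).congr ?_)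
  · simp
  · intro j hj
    fin_cases j <;> simp_all
  · filter_upwards [e, ev_t (3 : Fin 4)] with y a b
    rw [(W.nv _ _ _ a.1 a.2.1 b).1, P.χ_lo _ a.2.2, normSq_mk]
    simp only [eu]
    ring

theorem h (hx : ct (-1) 0 0 = x) : BB P x = 0 ∧ AA P x < 0 ∧ Crit 3 [BB P] (HH P) 1 x := by
  have p := P.ε_pos
  have hc : ContDiffAt ℝ ∞ (fun y : E 3 => (y 0 : ℂ)) 0 := cda_ofReal (cdj 0)
  have e := ((ev_eu (1 : Fin 3)).mono fun _ a => (norm_neg _).trans a).and (ev_c hc (by simp))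
  have v := W.nv (-1) 0 0 (by simp) (by simp) (by simp)
  refine ⟨by rw [← hx, v.2.1, zero_im], ?_, ?_⟩
  · rw [AA, ← hx, v.1]
    simpa [P.χ_lo 0 (by norm_num)] using p
  refine crit_ct (g := fun q => ![q.2.1.re, -q.1.im, q.2.2]) (cd_eu 1).neg hc (cdj 2)
    (e.mono fun _ a => ⟨a.1, a.2.1⟩) (by simpa [eu_zero] using hx)
    (differentiable_pi.2 fun j => by fin_cases j <;> simp <;> fun_prop)
    (fun y j => by fin_cases j <;> simp [eu]) ?_ (sig1 0 ?_ ?_)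
    (((((Jet.const 6).sub (Jet.sq 0)).sub ((jet_rt 1).smul P.ε)).add (Jet.sq 2)).congr ?_)
  · filter_upwards [e, ev_t (2 : Fin 3)] with y a b
    simp [(W.nv _ _ _ a.1 a.2.1 b).2.1]
  · simp
  · intro j hj
    fin_cases j <;> simp_all
  · filter_upwards [e, ev_t (2 : Fin 3)] with y a b
    rw [(W.nv _ _ _ a.1 a.2.1 b).1, P.χ_lo _ a.2.2, normSq_ofReal]
    simp only [eu, neg_re]
    ring

theorem w {σ : ℝ} (hσ : σ ^ 2 = 1) (hx : ct 1 (σ * √P.ε * I) 0 = x) :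
    AA P x = 0 ∧ 0 < σ * BB P x ∧ Crit 3 [AA P] (fun y => -σ * BW P y) 1 x := by
  have p := P.ε_pos
  have p' := Real.sqrt_pos.2 p
  have hR : ContDiffAt ℝ ∞ (fun y : E 3 => P.ε * √(1 - y 1 ^ 2) + y 2 ^ 2 - y 0 ^ 2) 0 :=
    ((contDiffAt_const.mul (cd_rt 1)).add ((cdj 2).pow 2)).sub ((cdj 0).pow 2)
  have hc : ContDiffAt ℝ ∞
      (fun y : E 3 => (⟨y 0, σ * √(P.ε * √(1 - y 1 ^ 2) + y 2 ^ 2 - y 0 ^ 2)⟩ : ℂ)) 0 :=
    cd_mk (cdj 0) (contDiffAt_const.mul (hR.sqrt (by simpa using p.ne')))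
  have c0 : (⟨0, σ * √P.ε⟩ : ℂ) = σ * √P.ε * I := by simp [Complex.ext_iff]
  have n0 : normSq (⟨0, σ * √P.ε⟩ : ℂ) = P.ε := by
    rw [normSq_mk]
    linear_combination √P.ε ^ 2 * hσ + Real.sq_sqrt p.le
  have e := ((ev_eu (1 : Fin 3)).and (ev_c hc (by simpa [n0] using P.ε_lt))).and
    ((ev_t (2 : Fin 3)).and (hR.continuousAt.eventually_const_lt (by simpa using p)))
  have hA := e.mono (q := fun y => AA P (ct (eu (y 1))
      ⟨y 0, σ * √(P.ε * √(1 - y 1 ^ 2) + y 2 ^ 2 - y 0 ^ 2)⟩ (y 2)) = 0) fun y a => by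
    rw [AA, (W.nv _ _ _ a.1.1 a.1.2.1 a.2.1).1, P.χ_lo _ a.1.2.2, normSq_mk]
    simp only [eu]
    linear_combination -√(P.ε * √(1 - y 1 ^ 2) + y 2 ^ 2 - y 0 ^ 2) ^ 2 * hσ -
      Real.sq_sqrt a.2.2.le
  refine ⟨by simpa [eu_zero, c0, hx] using hA.self_of_nhds, ?_, ?_⟩
  · rw [← hx, ← c0, (W.nv 1 _ 0 (by simp) (by simpa using e.self_of_nhds.1.2.1) (by simp)).2.1]
    linear_combination p' - √P.ε * hσ
  refine crit_ct (g := fun q => ![q.2.1.re, q.1.im, q.2.2]) (cd_eu 1) hc (cdj 2)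
    (e.mono fun _ a => ⟨a.1.1, a.1.2.1⟩) (by simpa [eu_zero, c0] using hx)
    (differentiable_pi.2 fun j => by fin_cases j <;> simp <;> fun_prop)
    (fun y j => by fin_cases j <;> rfl) (by simpa using hA) (sig1 2 ?_ ?_)
    ((((((jet_rt 1).smul P.ε).add (Jet.sq 2)).sub (Jet.sq 0)).comp
      (Real.hasDerivAt_sqrt (by simpa using p.ne'))).neg.congr ?_)
  · simpa using p
  · intro j hj
    fin_cases j <;> simp_all
  · filter_upwards [e] with y a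
    rw [(W.nv _ _ _ a.1.1 a.1.2.1 a.2.1).2.2]
    linear_combination -√(P.ε * √(1 - y 1 ^ 2) + y 2 ^ 2 - y 0 ^ 2) * hσ

omit W in
theorem pole (S : Smo P) (hx : sc x ^ 2 = 1) :
    0 < AA P x ∧ Crit 4 [] (fun y => -HH P y) 0 x := by
  refine ⟨not_le.1 fun a => by linarith [S.low x a], ?_⟩
  have hN : ContDiffAt ℝ ∞ (fun y : E 4 => y 0 ^ 2 + y 1 ^ 2 + y 2 ^ 2 + y 3 ^ 2) 0 :=
    ((((cdj 0).pow 2).add ((cdj 1).pow 2)).add ((cdj 2).pow 2)).add ((cdj 3).pow 2)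
  have s : ContDiffAt ℝ ∞ (fun y : E 4 => mk5 ⟨y 0, y 1⟩ ⟨y 2, y 3⟩
      (sc x * √(1 - (y 0 ^ 2 + y 1 ^ 2 + y 2 ^ 2 + y 3 ^ 2)))) 0 :=
    cd_mk5 (cd_mk (cdj 0) (cdj 1)) (cd_mk (cdj 2) (cdj 3))
      (contDiffAt_const.mul ((contDiffAt_const.sub hN).sqrt (by simp)))
  have e := (ev_lt hN (b := 1 / 10) (by simp)).mono (q := fun y =>
      (sc x * √(1 - (y 0 ^ 2 + y 1 ^ 2 + y 2 ^ 2 + y 3 ^ 2))) ^ 2 =
        1 - (y 0 ^ 2 + y 1 ^ 2 + y 2 ^ 2 + y 3 ^ 2) ∧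
      9 / 10 ≤ 1 - (y 0 ^ 2 + y 1 ^ 2 + y 2 ^ 2 + y 3 ^ 2)) fun y a =>
    ⟨by rw [mul_pow, hx, one_mul, Real.sq_sqrt (by linarith)], by linarith⟩
  have x0 : mk5 ⟨(0 : E 4) 0, (0 : E 4) 1⟩ ⟨(0 : E 4) 2, (0 : E 4) 3⟩ (sc x * √(1 - ((0 : E 4) 0 ^ 2 +
      (0 : E 4) 1 ^ 2 + (0 : E 4) 2 ^ 2 + (0 : E 4) 3 ^ 2))) = x := by
    have a := sph x
    have b := normSq_nonneg (zc x)
    have c := normSq_nonneg (wc x)
    exact ext5 (normSq_eq_zero.1 (by linarith)).symm (normSq_eq_zero.1 (by linarith)).symm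
      (by simp)
  have k := (P.k_sm.differentiable (by simp) (1 - (0 + 0 + 0 + 0))).hasDerivAt
  have k0 : 0 < deriv P.k 1 := lt_of_le_of_lt (by positivity) (P.k_der 1)
  have j := (((Jet.const 1).sub ((((Jet.sq (0 : Fin 4)).add (Jet.sq 1)).add (Jet.sq 2)).add
    (Jet.sq 3))).comp k).neg.congr (g := fun y => -HH P (mk5 ⟨y 0, y 1⟩ ⟨y 2, y 3⟩
      (sc x * √(1 - (y 0 ^ 2 + y 1 ^ 2 + y 2 ^ 2 + y 3 ^ 2))))) (e.mono fun y a => by
        simp only [HH, sc_mk5, a.1, P.η_hi _ a.2, zero_mul, zero_add])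
  refine ⟨_, fun _ => deriv P.k 1, s, x0, inj (g := fun p => ![p 0, p 1, p 2, p 3]) s
    (differentiableAt_pi.2 fun j => by fin_cases j <;> exact cd1 (cd_coord _).contDiffAt)
    (Eventually.of_forall fun y j => by fin_cases j <;> rfl), e.mono fun y a => ⟨?_, by simp⟩,
    fun _ => k0.ne', by simp [k0.not_gt],
    j.cast ((jet_val j).symm.trans (by rw [x0])) fun i => by fin_cases i <;> simp⟩
  refine mem_sphere_zero_iff_norm.1 (mem_sph ?_)
  rw [sc_mk5, a.1, zc_mk5, wc_mk5, normSq_mk, normSq_mk]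
  ring

end Ct

theorem ctt : CTStmt := fun _ W S =>
  ⟨fun _ => Ct.pole S, fun _ => Ct.o W, fun _ => Ct.h W, fun _ hσ _ => Ct.w W hσ⟩

end Pool.Agent.MP_7ebdba_gt.sm.m

end
end MrgPart2

-- ======== part 3: formerly Pool.Agent.MP_7ebdba_gt.sm.m.Cz
section MrgPart3

/-! Block M, row CZ: the critical points over the axis `z = 0`. -/

open scoped ContDiff Topology ComplexConjugate
open Set Complex Filter

noncomputable section

namespace Pool.Agent.MP_7ebdba_gt.sm.m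

namespace Cz

/-- the unit with imaginary part `u` -/
def ee (u : ℝ) : ℂ := (√(1 - u ^ 2) : ℝ) + u * I

theorem ee_re (u : ℝ) : (ee u).re = √(1 - u ^ 2) := by simp [ee]
theorem ee_im (u : ℝ) : (ee u).im = u := by simp [ee]
theorem ee_zero : ee 0 = 1 := by simp [ee]

theorem ee_norm {u : ℝ} (h : u ^ 2 ≤ 1) : ‖ee u‖ = 1 := by
  have : normSq (ee u) = 1 := by
    rw [normSq_apply, ee_re, ee_im, Real.mul_self_sqrt (by linarith)]
    ring
  rwa [normSq_eq_norm_sq, pow_eq_one_iff_of_nonneg (norm_nonneg _) two_ne_zero] at this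

/-- the second coordinate of the chart -/
def ww (o ζ : ℂ) (u : ℝ) : ℂ := o * Complex.sqrt (ee u + ζ ^ 3 / o ^ 2)

theorem pf_ww {o : ℂ} (ho : ‖o‖ = 1) (ζ : ℂ) (u : ℝ) : pf ζ (ww o ζ u) = -o ^ 2 * ee u := by
  have h0 : o ≠ 0 := norm_ne_zero_iff.1 (by simp [ho])
  have h1 : Complex.sqrt (ee u + ζ ^ 3 / o ^ 2) ^ 2 = ee u + ζ ^ 3 / o ^ 2 := by
    simp [Complex.sqrt]
  rw [pf, ww, mul_pow, h1]
  field_simp
  ring

theorem ww_zero (o : ℂ) : ww o 0 0 = o := by simp [ww, ee_zero]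

theorem npf {o : ℂ} (ho : ‖o‖ = 1) (ζ : ℂ) {u : ℝ} (hu : u ^ 2 ≤ 1) : ‖pf ζ (ww o ζ u)‖ = 1 := by
  rw [pf_ww ho, norm_mul, norm_neg, norm_pow, ho, ee_norm hu]
  norm_num

theorem key {P : Prof} (W : Wt P) {o : ℂ} (ho : ‖o‖ = 1) {ζ : ℂ} {u t : ℝ} (hu : u ^ 2 ≤ 1)
    (hζ : normSq ζ ≤ 3) (ht : t ^ 2 ≤ 8) :
    HH P (nrm ζ (ww o ζ u) t) = normSq ζ + t ^ 2 ∧
      BB P (nrm ζ (ww o ζ u) t) = (-o ^ 2 * ee u).im ∧
      BW P (nrm ζ (ww o ζ u) t) = √(6 - normSq ζ) * (-o ^ 2 * ee u).im := by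
  have h1 := npf ho ζ hu
  have h2 : normSq (pf ζ (ww o ζ u)) = 1 := by rw [normSq_eq_norm_sq, h1]; norm_num
  have h3 : xf ζ (ww o ζ u) = normSq ζ := by simp [xf, h2]
  have h4 := W.fv ζ (ww o ζ u) t (norm_ne_zero_iff.1 (by simp [h1])) (by
    rw [h2]
    have := pow_le_pow_left₀ (normSq_nonneg ζ) hζ 3
    linarith) ht
  rw [h3, ph_unit h1, pf_ww ho, gam, P.F_lo _ hζ, P.β_lo _ hζ, one_mul] at h4
  exact h4

/-- the test map -/
def GG (o : ℂ) (y : ℂ × ℂ × ℝ) : ℂ × ℝ × ℝ :=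
  (y.1 / (‖pf y.1 y.2.1‖ ^ (1 / 3 : ℝ) : ℝ), (ph (pf y.1 y.2.1) / -o ^ 2).im, y.2.2)

theorem GG_sca (o : ℂ) (r : ℝ) (z w : ℂ) (t : ℝ) (hr : 0 < r) :
    GG o (r ^ 2 * z, r ^ 3 * w, t) = GG o (z, w, t) := by
  have h0 : (r : ℂ) ≠ 0 := ofReal_ne_zero.2 hr.ne'
  have e : ‖(r : ℂ) ^ 6 * pf z w‖ ^ (1 / 3 : ℝ) = r ^ 2 * ‖pf z w‖ ^ (1 / 3 : ℝ) := by
    rw [norm_mul, norm_pow, norm_real, Real.norm_eq_abs, abs_of_pos hr,
      (rp6 hr.le _ (norm_nonneg _)).1]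
  simp only [GG, ph_pf_smul, ph_pos hr, one_pow, one_mul]
  rw [pf_smul, e, ofReal_mul, ofReal_pow, mul_div_mul_left _ _ (pow_ne_zero 2 h0)]

theorem GG_diff {o : ℂ} (ho : ‖o‖ = 1) {y : ℂ × ℂ × ℝ} (h : pf y.1 y.2.1 ≠ 0) :
    DifferentiableAt ℝ (GG o) y := by
  have h0 : o ≠ 0 := norm_ne_zero_iff.1 (by simp [ho])
  have hp : ContDiffAt ℝ ∞ (fun y : ℂ × ℂ × ℝ => pf y.1 y.2.1) y :=
    cda_pf contDiffAt_fst contDiffAt_snd.fst
  have hn := norm_pos_iff.2 h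
  have : ContDiffAt ℝ ∞ (GG o) y :=
    (cda_div contDiffAt_fst (cda_ofReal ((cda_norm hp h).rpow_const_of_ne hn.ne'))
      (ofReal_ne_zero.2 (Real.rpow_pos_of_pos hn _).ne')).prodMk
    ((cda_im (cda_div (cda_ph hp h) contDiffAt_const (by simpa using h0))).prodMk
      contDiffAt_snd.snd)
  exact this.differentiableAt (by simp)

theorem GG_val {o : ℂ} (ho : ‖o‖ = 1) (ζ : ℂ) {u : ℝ} (hu : u ^ 2 ≤ 1) (t : ℝ) :
    GG o (ζ, ww o ζ u, t) = (ζ, u, t) := by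
  have h0 : -o ^ 2 ≠ 0 := by simpa using norm_ne_zero_iff.1 (by simp [ho] : ‖o‖ ≠ 0)
  have h1 := npf ho ζ hu
  simp only [GG, h1, ph_unit h1, Real.one_rpow, ofReal_one, div_one]
  rw [pf_ww ho, mul_div_cancel_left₀ _ h0, ee_im]

theorem gen {P : Prof} (W : Wt P) {n : ℕ} {es : List (E 5 → ℝ)} {k : E 5 → ℝ} {x : S4} {o : ℂ}
    (ho : ‖o‖ = 1) (i j : Fin n) {u t f : E n → ℝ} {c : Fin n → ℝ}
    (hu : ContDiffAt ℝ ∞ u 0) (ht : ContDiffAt ℝ ∞ t 0) (u0 : u 0 = 0) (t0 : t 0 ^ 2 < 8)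
    (hx : nrm 0 o (t 0) = x)
    (inj : ∀ y : E n, y i = 0 → y j = 0 → fderiv ℝ u 0 y = 0 → fderiv ℝ t 0 y = 0 → y = 0)
    (hc : ∀ j, 0 < c j) (hj : Jet f (f 0) c)
    (h : ∀ y : E n, y i ^ 2 + y j ^ 2 ≤ 3 → ∀ v : E 5, HH P v = y i ^ 2 + y j ^ 2 + t y ^ 2 →
      BB P v = (-o ^ 2 * ee (u y)).im →
      BW P v = √(6 - (y i ^ 2 + y j ^ 2)) * (-o ^ 2 * ee (u y)).im →
      (∀ e ∈ es, e v = 0) ∧ k v = f y) : Crit n es k 0 x := by
  have h0 : o ≠ 0 := norm_ne_zero_iff.1 (by simp [ho])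
  let ζ : E n →L[ℝ] ℂ := ofRealCLM.comp (EuclideanSpace.proj i) +
    I • ofRealCLM.comp (EuclideanSpace.proj j)
  have hζ : ∀ y, normSq (ζ y) = y i ^ 2 + y j ^ 2 := fun y => by
    simp [ζ, normSq_apply, sq]
  let ψ : E n → ℂ × ℂ × ℝ := fun y => (ζ y, ww o (ζ y) (u y), t y)
  have p0 : ψ 0 = (0, o, t 0) := by simp only [ψ, map_zero, u0, ww_zero]
  have cζ : ContDiffAt ℝ ∞ ζ 0 := ζ.contDiff.contDiffAt
  have ce : ContDiffAt ℝ ∞ (fun y => ee (u y)) 0 :=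
    (cda_ofReal ((contDiffAt_const.sub (hu.pow 2)).sqrt (by simp [u0]))).add
      ((cda_ofReal hu).mul contDiffAt_const)
  have cψ : ContDiffAt ℝ ∞ ψ 0 :=
    cζ.prodMk ((contDiffAt_const.mul (cda_csqrt (ce.add ((cζ.pow 3).div_const _))
      (by simp [u0, ee_zero]))).prodMk ht)
  have e1 : ∀ᶠ y in 𝓝 (0 : E n), u y ^ 2 ≤ 1 :=
    (hu.continuousAt.pow 2).eventually (ge_mem_nhds (by simp [u0]))
  have e2 : ∀ᶠ y in 𝓝 (0 : E n), t y ^ 2 ≤ 8 := (ht.continuousAt.pow 2).eventually (ge_mem_nhds t0)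
  have e3 : ∀ᶠ y in 𝓝 (0 : E n), normSq (ζ y) ≤ 3 :=
    (cda_normSq cζ).continuousAt.eventually (ge_mem_nhds (by simp))
  have e4 : ∀ᶠ y in 𝓝 (0 : E n), (∀ e ∈ es, e (N3 (ψ y)) = 0) ∧ k (N3 (ψ y)) = f y := by
    filter_upwards [e1, e2, e3] with y a1 a2 a3
    obtain ⟨b1, b2, b3⟩ := key W ho a1 a3 a2
    rw [hζ] at a3
    exact h y a3 _ (b1.trans (by rw [hζ])) b2 (b3.trans (by rw [hζ]))
  have n0 : N3 (ψ 0) = x := by rw [p0]; exact hx
  refine W.crit n 0 es k x ψ (GG o) (ζ.prod ((fderiv ℝ u 0).prod (fderiv ℝ t 0))) c cψ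
    (Or.inr (by rw [p0]; exact h0)) n0 (GG_diff ho (by rw [p0]; simp [pf, h0])) (GG_sca o)
    ?_ ?_ (e4.mono fun y a => a.1) (fun j => (hc j).ne') ?_ ?_
  · refine (ζ.hasFDerivAt.prodMk ((hu.differentiableAt (by simp)).hasFDerivAt.prodMk
      (ht.differentiableAt (by simp)).hasFDerivAt)).congr_of_eventuallyEq ?_
    filter_upwards [e1] with y a using GG_val ho _ a _
  · refine (injective_iff_map_eq_zero _).2 fun y a => ?_
    have a1 : ζ y = 0 := congrArg Prod.fst a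
    have a2 := hζ y
    rw [a1, map_zero] at a2
    exact inj y (by nlinarith) (by nlinarith) (congrArg (·.2.1) a) (congrArg (·.2.2) a)
  · have : {j | c j < 0} = ∅ := eq_empty_of_forall_notMem fun j a => lt_asymm (hc j) a
    rw [this, ncard_empty]
  · have := hj.congr (e4.mono fun y a => a.2)
    rwa [← e4.self_of_nhds.2, n0] at this

theorem base {P : Prof} (W : Wt P) {o : ℂ} (ho : ‖o‖ = 1) {t : ℝ} (ht : t ^ 2 ≤ 8) :
    HH P (nrm 0 o t) = t ^ 2 ∧ BB P (nrm 0 o t) = (-o ^ 2).im := by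
  obtain ⟨a, b, -⟩ := key W ho (ζ := 0) (u := 0) (by norm_num) (by simp) ht
  rw [ww_zero] at a b
  exact ⟨by simpa using a, by simpa [ee_zero] using b⟩

theorem unit_of {o c : ℂ} {m : ℕ} (hm : m ≠ 0) (h : o ^ m = c) (hc : ‖c‖ = 1) : ‖o‖ = 1 := by
  rwa [← h, norm_pow, pow_eq_one_iff_of_nonneg (norm_nonneg _) hm] at hc

theorem sig {σ : ℝ} (h : σ ^ 2 = 1) : ‖-(σ * I : ℂ)‖ = 1 := by
  simpa using (pow_eq_one_iff_of_nonneg (abs_nonneg σ) two_ne_zero).1 (by rwa [sq_abs])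

theorem jet_sqrt {n : ℕ} {f : E n → ℝ} {a : ℝ} {c : Fin n → ℝ} (h : Jet f a c) (ha : 0 < a) :
    Jet (fun y => √(f y)) √a ((1 / (2 * √a)) • c) :=
  h.comp (Real.hasDerivAt_sqrt ha.ne')

theorem fd {n : ℕ} (i : Fin n) (y : E n) : fderiv ℝ (fun y : E n => y i) 0 y = y i := by
  rw [show (fun y : E n => y i) = EuclideanSpace.proj (𝕜 := ℝ) i from rfl,
    ContinuousLinearMap.fderiv]
  rfl

theorem cd {n : ℕ} (i : Fin n) : ContDiffAt ℝ ∞ (fun y : E n => y i) 0 :=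
  (EuclideanSpace.proj (𝕜 := ℝ) i).contDiff.contDiffAt

end Cz

open Cz in
theorem cz : CZStmt := fun P W _ => by
  refine ⟨?_, ?_, ?_⟩
  · rintro σ hσ x ⟨o, t, h1, h2, h3⟩
    obtain rfl : t = 0 := pow_eq_zero_iff (two_ne_zero) |>.1 h2
    have ho := unit_of two_ne_zero h1 (sig hσ)
    obtain ⟨a, b⟩ := base W ho (t := 0) (by norm_num)
    rw [h3] at a b
    refine ⟨by rw [AA, a]; norm_num, by rw [b, h1]; simp [← sq, hσ], ?_⟩
    refine gen W ho 0 1 (u := fun y => y 2) (t := fun y => y 3)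
      (f := fun y => y 0 ^ 2 + y 1 ^ 2 + y 3 ^ 2 - √(1 - y 2 ^ 2)) (cd 2) (cd 3) rfl
      (by norm_num) h3 ?_ ?_ (((((Jet.sq 0).add (Jet.sq 1)).add (Jet.sq 3)).sub
        (jet_sqrt ((Jet.const 1).sub (Jet.sq 2)) (by norm_num))).cast (by simp) fun _ => rfl) ?_
    · intro y a0 a1 a2 a3
      rw [fd] at a2 a3
      ext j
      fin_cases j <;> assumption
    · intro j
      fin_cases j <;> simp
    · intro y _ v b1 b2 _
      refine ⟨by simp, ?_⟩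
      simp only [b1, b2, h1, neg_neg, mul_im, mul_re, ofReal_re, ofReal_im, I_re, I_im, ee_re]
      linear_combination (-√(1 - y 2 ^ 2)) * hσ
  · rintro x ⟨o, t, h1, h2, h3⟩
    obtain rfl : t = 0 := pow_eq_zero_iff (two_ne_zero) |>.1 h2
    have ho := unit_of (by norm_num) h1 norm_one
    obtain ⟨a, b⟩ := base W ho (t := 0) (by norm_num)
    rw [h3] at a b
    have him : (-o ^ 2).im = 0 := by
      have : (o ^ 2) ^ 2 = 1 := by rw [← pow_mul]; exact h1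
      rcases sq_eq_one_iff.1 this with e | e <;> simp [e]
    refine ⟨b.trans him, by rw [AA, a]; norm_num, ?_⟩
    refine gen W ho 0 1 (u := fun _ => 0) (t := fun y => y 2)
      (f := fun y => y 0 ^ 2 + y 1 ^ 2 + y 2 ^ 2) contDiffAt_const (cd 2) rfl
      (by norm_num) h3 ?_ ?_ ((((Jet.sq 0).add (Jet.sq 1)).add (Jet.sq 2)).cast (by simp)
        fun _ => rfl) ?_
    · intro y a0 a1 _ a3
      rw [fd] at a3
      ext j
      fin_cases j <;> assumption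
    · intro j
      fin_cases j <;> simp
    · intro y _ v b1 b2 _
      exact ⟨by simpa [b2, ee_zero] using him, b1⟩
  · rintro σ hσ x ⟨o, t, h1, h2, h3⟩
    have ho := unit_of two_ne_zero h1 (sig hσ)
    obtain ⟨a, b⟩ := base W ho (t := t) (by linarith)
    rw [h3] at a b
    refine ⟨by rw [AA, a, h2]; norm_num, by rw [b, h1]; simp [← sq, hσ], ?_⟩
    have s6 : 0 < √6 := by positivity
    have t0 : t / √6 * √(6 - ((0 : E 3) 0 ^ 2 + (0 : E 3) 1 ^ 2)) = t := by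
      simp [s6.ne']
    refine gen W ho 0 1 (u := fun y => y 2) (t := fun y => t / √6 * √(6 - (y 0 ^ 2 + y 1 ^ 2)))
      (f := fun y => -(√(6 - (y 0 ^ 2 + y 1 ^ 2)) * √(1 - y 2 ^ 2))) (cd 2)
      (contDiffAt_const.mul ((contDiffAt_const.sub (((cd 0).pow 2).add ((cd 1).pow 2))).sqrt
        (by simp))) rfl (by simp only [t0]; linarith) (by simp only [t0]; exact h3) ?_ ?_
      (((jet_sqrt ((Jet.const 6).sub ((Jet.sq 0).add (Jet.sq 1))) (by norm_num)).mul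
        (jet_sqrt ((Jet.const 1).sub (Jet.sq 2)) (by norm_num))).neg.cast (by simp)
        fun _ => rfl) ?_
    · intro y a0 a1 a2 _
      rw [fd] at a2
      ext j
      fin_cases j <;> assumption
    · intro j
      fin_cases j <;> simp
    · intro y b0 v b1 _ b3
      constructor
      · simp only [List.mem_singleton, forall_eq, AA, b1, mul_pow, div_pow, h2]
        rw [Real.sq_sqrt (by norm_num), Real.sq_sqrt (by linarith)]
        ring
      · simp only [b3, h1, neg_neg, mul_im, mul_re, ofReal_re, ofReal_im, I_re, I_im, ee_re]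
        linear_combination (-(√(6 - (y 0 ^ 2 + y 1 ^ 2)) * √(1 - y 2 ^ 2))) * hσ

end Pool.Agent.MP_7ebdba_gt.sm.m

end
end MrgPart3

-- ======== part 4: formerly Pool.Agent.MP_7ebdba_gt.sm.m.Dir
section MrgPart4

/-! Block M, row DIR: tangent directions with prescribed derivatives. -/

open scoped ContDiff Topology ComplexConjugate
open Set Complex Filter

noncomputable section

namespace Pool.Agent.MP_7ebdba_gt.sm.m

namespace Dr

variable {P : Prof}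

theorem dir_of (W : Wt P) (S : Smo P) {γ : ℝ → ℂ × ℂ × ℝ} {x : S4}
    (hd : ContDiffAt ℝ ∞ γ 0) (h0 : (γ 0).1 ≠ 0 ∨ (γ 0).2.1 ≠ 0) (hx : N3 (γ 0) = x)
    {fh fb fg : ℝ → ℝ} {h b g : ℝ}
    (e : ∀ᶠ s in 𝓝 0, HH P (N3 (γ s)) = fh s ∧ BB P (N3 (γ s)) = fb s ∧ BW P (N3 (γ s)) = fg s)
    (dh : HasDerivAt fh h 0) (db : HasDerivAt fb b 0) (dg : HasDerivAt fg g 0) :
    Dir P x h b g := by
  obtain ⟨v, hv, hf⟩ := W.push γ x (hd.differentiableAt (by simp)) h0 hx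
  exact ⟨v, hv, hf _ _ S.sH (dh.congr_of_eventuallyEq (e.mono fun _ a => a.1)),
    hf _ _ S.sB (db.congr_of_eventuallyEq (e.mono fun _ a => a.2.1)),
    hf _ _ S.sW (dg.congr_of_eventuallyEq (e.mono fun _ a => a.2.2))⟩

theorem d_re {f : ℝ → ℂ} {d : ℂ} (h : HasDerivAt f d 0) :
    HasDerivAt (fun s => (f s).re) d.re 0 := reCLM.hasFDerivAt.comp_hasDerivAt 0 h

theorem d_im {f : ℝ → ℂ} {d : ℂ} (h : HasDerivAt f d 0) :
    HasDerivAt (fun s => (f s).im) d.im 0 := imCLM.hasFDerivAt.comp_hasDerivAt 0 h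

theorem d_lin (t t' : ℝ) : HasDerivAt (fun s : ℝ => t + s * t') t' 0 := by
  simpa using ((hasDerivAt_id (0 : ℝ)).mul_const t').const_add t

theorem d_sq (t t' : ℝ) : HasDerivAt (fun s : ℝ => (t + s * t') ^ 2) (2 * t * t') 0 :=
  ((d_lin t t').pow 2).congr_deriv (by simp)

theorem d_rot (a : ℂ) (τ : ℝ) :
    HasDerivAt (fun s : ℝ => exp ((τ * s : ℝ) * I) * a) (τ * I * a) 0 := by
  have h1 : HasDerivAt (fun s : ℝ => ((τ * s : ℝ) : ℂ) * I) (τ * I) 0 := by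
    simpa using ((hasDerivAt_id (0 : ℝ)).const_mul τ).ofReal_comp.mul_const I
  simpa using h1.cexp.mul_const a

theorem d_comp {f g : ℝ → ℝ} {d y : ℝ} (hf : DifferentiableAt ℝ f y) (hg : HasDerivAt g d 0)
    (e : g 0 = y) : HasDerivAt (fun s => f (g s)) (deriv f y * d) 0 := by
  subst e
  exact hf.hasDerivAt.comp 0 hg

theorem ev_t {t : ℝ} (ht : t ^ 2 < 8) (t' : ℝ) : ∀ᶠ s in 𝓝 (0 : ℝ), (t + s * t') ^ 2 ≤ 8 :=
  ((d_sq t t').continuousAt.eventually_lt continuousAt_const (by simpa using ht)).mono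
    fun _ a => a.le

theorem near (W : Wt P) (S : Smo P) (x : S4) (a c : ℂ) (t : ℝ) (ha : ‖a‖ = 1)
    (hc : ‖c‖ < 1 / 8) (ht : t ^ 2 < 8) (hx : ct a c t = x) (τ t' : ℝ) (u : ℂ) : Dir P x
      ((P.ε * deriv P.χ (normSq c) * a.re - 1) * (2 * (c.re * u.re + c.im * u.im)) -
        P.ε * P.χ (normSq c) * a.im * τ + 2 * t * t') u.im u.im := by
  have dc : HasDerivAt (fun s : ℝ => c + s * u) u 0 := by
    simpa using ((hasDerivAt_id (0 : ℝ)).ofReal_comp.mul_const u).const_add c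
  have dn : HasDerivAt (fun s : ℝ => normSq (c + s * u)) (2 * (c.re * u.re + c.im * u.im)) 0 := by
    refine (((d_re dc).mul (d_re dc)).add ((d_im dc).mul (d_im dc))).congr_deriv ?_
    simp only [ofReal_zero, zero_mul, add_zero]
    ring
  have dχ := d_comp (P.χ_sm.differentiable (by simp) (normSq c)) dn (by simp)
  have dH := (((dn.const_sub 6).add ((dχ.const_mul P.ε).mul (d_re (d_rot a τ)))).add (d_sq t t'))
  have a0 : a ≠ 0 := norm_ne_zero_iff.1 (by simp [ha])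
  refine dir_of W S (γ := fun s => ((exp ((τ * s : ℝ) * I) * a) ^ 2,
    (exp ((τ * s : ℝ) * I) * a) ^ 3 *
      Complex.sqrt (1 - (c + s * u) * conj (exp ((τ * s : ℝ) * I) * a) ^ 6), t + s * t'))
    ?_ (Or.inl (by simpa using a0)) (by simpa [N3, ct] using hx) ?_ (dH.congr_deriv ?_)
    (d_im dc) (d_im dc)
  · refine ContDiffAt.prodMk (by fun_prop) (ContDiffAt.prodMk (ContDiffAt.mul (by fun_prop)
      (cda_csqrt (by fun_prop) ?_)) (by fun_prop))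
    simpa using (W.nco a c ha hc).1
  · have h0 : ∀ᶠ s : ℝ in 𝓝 0, ‖c + s * u‖ < 1 / 8 :=
      dc.continuousAt.norm.eventually_lt continuousAt_const (by simpa using hc)
    filter_upwards [ev_t ht t', h0] with s h1 h2
    exact W.nv _ _ _ (by rw [norm_mul, norm_exp_ofReal_mul_I, ha, one_mul]) h2 h1
  · simp
    ring

theorem rot_pf (z w : ℂ) (τ : ℝ) :
    pf (exp ((τ / 6 : ℝ) * I) ^ 2 * z) (exp ((τ / 6 : ℝ) * I) ^ 3 * w) = exp (τ * I) * pf z w := by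
  rw [pf_smul, ← exp_nat_mul]
  congr 2
  push_cast
  ring

theorem far (W : Wt P) (S : Smo P) (x : S4) (z w : ℂ) (t : ℝ) (hp : pf z w ≠ 0)
    (hn : ¬ Near z w) (ht : t ^ 2 < 8) (hx : nrm z w t = x) (τ ξ t' : ℝ)
    (hξ : ξ = 0 ∨ z * w ≠ 0) : Dir P x (deriv P.F (xf z w) * ξ + 2 * t * t')
      (deriv P.β (xf z w) * ξ * (ph (pf z w)).im + P.β (xf z w) * τ * (ph (pf z w)).re)
      (deriv (gam P) (xf z w) * ξ * (ph (pf z w)).im + gam P (xf z w) * τ * (ph (pf z w)).re) := by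
  obtain ⟨ν, h1, h2⟩ : ∃ ν : ℝ, xf z w * (2 * ν) = ξ ∧ (ν = 0 ∨ w ≠ 0) := by
    rcases hξ with h | h
    · exact ⟨0, by simp [h], Or.inl rfl⟩
    · have : xf z w ≠ 0 := (div_pos (normSq_pos.2 (left_ne_zero_of_mul h))
        (Real.rpow_pos_of_pos (normSq_pos.2 hp) _)).ne'
      exact ⟨ξ / (2 * xf z w), by field_simp, Or.inr (right_ne_zero_of_mul h)⟩
  set w' : ℝ → ℂ := fun s =>
    w * Complex.sqrt (1 + (1 - (Real.exp (-(ν * s)) : ℂ) ^ 3) * pf z w / w ^ 2) with hw'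
  have e1 : ∀ s, pf z (w' s) = (Real.exp (-(ν * s)) ^ 3 : ℝ) * pf z w := fun s => by
    rcases h2 with h | h
    · simp [hw', h]
    · simp only [hw', pf, mul_pow, Complex.sqrt, cpow_ofNat_inv_pow, ofReal_pow]
      field_simp
      ring
  have e2 : ∀ s, xf z (w' s) = xf z w * Real.exp (2 * ν * s) := fun s => by
    have h3 := Real.exp_pos (-(ν * s))
    have h4 : Real.exp (-(ν * s)) ^ 2 * Real.exp (2 * ν * s) = 1 := by
      rw [← Real.exp_nat_mul, ← Real.exp_add, Real.exp_eq_one_iff]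
      push_cast
      ring
    have h5 := Real.rpow_pos_of_pos (normSq_pos.2 hp) (1 / 3)
    rw [xf, e1, map_mul, normSq_ofReal, ← pow_add, (rp6 h3.le _ (normSq_nonneg _)).1, xf,
      eq_inv_of_mul_eq_one_right h4]
    field_simp
  have dX : HasDerivAt (fun s : ℝ => xf z w * Real.exp (2 * ν * s)) ξ 0 := by
    simpa [h1] using (((hasDerivAt_id (0 : ℝ)).const_mul (2 * ν)).exp.const_mul (xf z w))
  have dB : ∀ b : ℝ → ℝ, DifferentiableAt ℝ b (xf z w) → HasDerivAt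
      (fun s : ℝ => b (xf z w * Real.exp (2 * ν * s)) * (exp ((τ * s : ℝ) * I) * ph (pf z w)).im)
      (deriv b (xf z w) * ξ * (ph (pf z w)).im + b (xf z w) * τ * (ph (pf z w)).re) 0 :=
    fun b hb => ((d_comp hb dX (by simp)).mul (d_im (d_rot (ph (pf z w)) τ))).congr_deriv (by
      simp [mul_assoc])
  have cw : ContDiffAt ℝ ∞ w' 0 :=
    contDiffAt_const.mul (cda_csqrt (by simp only [div_eq_mul_inv]; fun_prop) (by simp))
  have cz : ContDiffAt ℝ ∞ (fun s : ℝ => exp ((τ * s / 6 : ℝ) * I) ^ 2 * z) 0 := by fun_prop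
  have cw2 : ContDiffAt ℝ ∞ (fun s : ℝ => exp ((τ * s / 6 : ℝ) * I) ^ 3 * w' s) 0 := by fun_prop
  have hF := P.F_sm.differentiable (by simp) (xf z w)
  refine dir_of W S (γ := fun s => (exp ((τ * s / 6 : ℝ) * I) ^ 2 * z,
    exp ((τ * s / 6 : ℝ) * I) ^ 3 * w' s, t + s * t')) (cz.prodMk (cw2.prodMk (by fun_prop)))
    (by simpa [hw', -not_and] using zw_ne hp) (by simpa [N3, hw'] using hx) ?_
    ((d_comp hF dX (by simp)).add (d_sq t t')) (dB _ (P.β_sm.differentiable (by simp) _))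
    (dB _ ((hF.const_sub 6).sqrt (sub_pos.2 (S.F6 _)).ne'))
  have h3 := normSq_pos.2 hp
  have h0 : ∀ᶠ s : ℝ in 𝓝 0, normSq (exp ((τ * s / 6 : ℝ) * I) ^ 2 * z) ^ 3 < 100 * normSq
      (pf (exp ((τ * s / 6 : ℝ) * I) ^ 2 * z) (exp ((τ * s / 6 : ℝ) * I) ^ 3 * w' s)) :=
    ((cda_normSq cz).pow 3).continuousAt.eventually_lt
      (contDiffAt_const.mul (cda_normSq (cda_pf cz cw2))).continuousAt (by
        simp only [Near, not_lt] at hn
        simp [hw']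
        linarith)
  filter_upwards [ev_t ht t', h0] with s h4 h5
  have h6 := Real.exp_pos (-(ν * s))
  have := W.fv _ _ _ (by
    rw [rot_pf, e1]
    exact mul_ne_zero (exp_ne_zero _) (mul_ne_zero (ofReal_ne_zero.2 (by positivity)) hp)) h5 h4
  rwa [xf_smul (exp_ne_zero _), e2, rot_pf, e1, ph_mul, ph_mul, ph_pos (by positivity), one_mul,
    ph_unit (norm_exp_ofReal_mul_I _)] at this

theorem mid (W : Wt P) (S : Smo P) (x : S4) (h0 : 0 < sc x ^ 2) (h1 : sc x ^ 2 < 1) :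
    ∃ v, Tangent [] x v ∧ fderiv ℝ (HH P) x v < 0 := by
  obtain ⟨hz, hx⟩ := W.eta x h1
  have ht : tt x ≠ 0 := div_ne_zero (fun a => by simp [a] at h0)
    (Real.sqrt_pos.2 (sub_pos.2 h1)).ne'
  generalize tt (x : E 5) = t at *
  generalize zc (x : E 5) = z at *
  generalize wc (x : E 5) = w at *
  obtain ⟨v, hv, hf⟩ := W.push (fun s => (z, w, t + s * -t)) x (by fun_prop) hz
    (by simpa [N3] using hx)
  have dσ : HasDerivAt (fun s : ℝ => (t + s * -t) ^ 2 / (1 + (t + s * -t) ^ 2))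
      (-(2 * t ^ 2 / (1 + t ^ 2) ^ 2)) 0 := by
    refine ((d_sq t (-t)).div ((d_sq t (-t)).const_add 1) (by positivity)).congr_deriv ?_
    simp only [zero_mul, add_zero]
    ring
  have dη := d_comp (P.η_sm.differentiable (by simp) (t ^ 2 / (1 + t ^ 2))) dσ (by simp)
  have dk := d_comp (P.k_sm.differentiable (by simp) (t ^ 2 / (1 + t ^ 2))) dσ (by simp)
  refine ⟨v, hv, ?_⟩
  rw [hf _ _ S.sH (((dη.mul_const (mf P z w)).add dk).congr_of_eventuallyEq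
    (Eventually.of_forall fun s => W.mid z w _ hz))]
  have h2 : 0 < 2 * t ^ 2 / (1 + t ^ 2) ^ 2 := by positivity
  have h3 := P.k_der (t ^ 2 / (1 + t ^ 2))
  obtain ⟨h4, h5⟩ := S.m0 z w
  have h6 := neg_abs_le (deriv P.η (t ^ 2 / (1 + t ^ 2)))
  have h7 := abs_nonneg (deriv P.η (t ^ 2 / (1 + t ^ 2)))
  have h8 : 0 < deriv P.η (t ^ 2 / (1 + t ^ 2)) * mf P z w + deriv P.k (t ^ 2 / (1 + t ^ 2)) := by
    nlinarith
  nlinarith

end Dr

theorem dirs : DirStmt := fun _ W S => ⟨Dr.near W S, Dr.far W S, Dr.mid W S⟩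

end Pool.Agent.MP_7ebdba_gt.sm.m

end
end MrgPart4

-- ======== part 5: formerly Pool.Agent.MP_7ebdba_gt.sm.m.Wt
section MrgPart5

/-! Block M, row WT: values and derivatives in the weighted cone. -/

open scoped ContDiff Topology ComplexConjugate
open Set Complex Filter

noncomputable section

namespace Pool.Agent.MP_7ebdba_gt.sm.m

variable {z w : ℂ} {t : ℝ}

namespace WtP

theorem eta_k (P : Prof) (h : t ^ 2 ≤ 8) :
    P.η (t ^ 2 / (1 + t ^ 2)) = 1 ∧ P.k (t ^ 2 / (1 + t ^ 2)) = t ^ 2 := by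
  have a : t ^ 2 / (1 + t ^ 2) ≤ 8 / 9 := by
    rw [div_le_iff₀ (by positivity)]
    linarith
  refine ⟨P.η_lo _ a, ?_⟩
  rw [P.k_lo _ a]
  field_simp
  ring

theorem big (h : pf z w ≠ 0) (hn : Near z w) (h1 : normSq z ^ 3 < 100 * normSq (pf z w)) :
    4 ≤ xf z w ∧ 1 / 100 ≤ tf z w ∧ (xf z w ^ 3)⁻¹ = tf z w := by
  refine ⟨((near_iff h).1 hn).le, ?_, by rw [xf_cube, inv_inv]⟩
  rw [tf, le_div_iff₀ (pow_pos (normSq_pos.2 hn.z_ne) 3)]
  linarith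

theorem mf_far (P : Prof) (h : pf z w ≠ 0) (h1 : normSq z ^ 3 < 100 * normSq (pf z w)) :
    mf P z w = P.F (xf z w) := by
  unfold mf
  split_ifs with hn
  · obtain ⟨a, b, c⟩ := big h hn h1
    rw [P.χ_hi _ b, P.F_hi _ a, c]
    ring
  · rfl

theorem bf_far {β : ℝ → ℝ} (hβ : ∀ X ≥ 4, β X = √(X ^ 3)⁻¹) (h : pf z w ≠ 0)
    (h1 : normSq z ^ 3 < 100 * normSq (pf z w)) : bf β z w = β (xf z w) * (ph (pf z w)).im := by
  unfold bf
  split_ifs with hn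
  · obtain ⟨a, -, c⟩ := big h hn h1
    have e : ph (cf z w) = ph (pf z w) := by
      rw [cf, ph_div, ph_pos (pow_pos (norm_pos_iff.2 hn.z_ne) 3), div_one]
    rw [hβ _ a, c, ← normSq_cf, ← norm_def, ← e, ← im_ofReal_mul, norm_mul_ph]
  · rfl

theorem beta_hi (P : Prof) : ∀ X ≥ 4, P.β X = √(X ^ 3)⁻¹ := fun X h => by
  have : 0 ≤ X := by linarith
  rw [P.β_hi X h, Real.sqrt_inv]
  congr 1
  rw [eq_comm, Real.sqrt_eq_iff_mul_self_eq (by positivity) (by positivity), ← mul_pow,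
    Real.mul_self_sqrt this]

theorem gam_hi (P : Prof) : ∀ X ≥ 4, gam P X = √(X ^ 3)⁻¹ := fun X h => by
  rw [gam, P.F_hi X h, sub_sub_cancel]

theorem val (P : Prof) (h : z ≠ 0 ∨ w ≠ 0) (ht : t ^ 2 ≤ 8) :
    HH P (nrm z w t) = mf P z w + t ^ 2 ∧ BB P (nrm z w t) = bf P.β z w ∧
      BW P (nrm z w t) = bf (gam P) z w := by
  obtain ⟨a, b⟩ := eta_k P ht
  rw [HH_nrm h, BB_nrm h, BW, bf_nrm h, sc_nrm_sq, a, b, one_mul, one_mul, one_mul]
  exact ⟨rfl, rfl, rfl⟩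

theorem eta {x : S4} (h : sc x ^ 2 < 1) : zc x ≠ 0 ∨ wc x ≠ 0 := by
  by_contra c
  push Not at c
  have := sph x
  simp only [c.1, c.2, map_zero] at this
  linarith

theorem cd (h : z ≠ 0 ∨ w ≠ 0) : ContDiffAt ℝ ∞ N3 (z, w, t) :=
  cda_nrm (x := (z, w, t)) contDiffAt_fst contDiffAt_snd.fst contDiffAt_snd.snd h

theorem cov {x : S4} (h : sc x ^ 2 < 8 / 9) :
    (∃ a c t, ‖a‖ = 1 ∧ ‖c‖ < 1 / 8 ∧ t ^ 2 < 8 ∧ ct a c t = x) ∨
      ∃ z w t, pf z w ≠ 0 ∧ ¬ Near z w ∧ t ^ 2 < 8 ∧ nrm z w t = x ∧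
        (z * w ≠ 0 ∨ z = 0 ∧ ‖w‖ = 1 ∨ w = 0 ∧ ‖z‖ = 1) := by
  have h0 := eta (x := x) (by linarith)
  have ht : tt x ^ 2 < 8 := by
    rw [tt_sq (sc_lt h0), div_lt_iff₀ (sc_lt h0)]
    linarith
  by_cases hn : Near (zc x) (wc x)
  · exact Or.inl ⟨_, _, _, hn.norm_af, hn.cf_lt, ht, ct_self hn⟩
  right
  by_cases hz : zc x = 0
  · have hw := h0.resolve_left (not_not.2 hz)
    have a := norm_pos_iff.2 hw
    refine ⟨0, ph (wc x), _, by simpa [pf] using ph_ne hw, fun c => c.z_ne rfl, ht,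
      nrm_eq (Or.inr (ph_ne hw)) (Real.rpow_pos_of_pos a (1 / 3)) (by simp [hz]) ?_ rfl,
      Or.inr (Or.inl ⟨rfl, norm_ph hw⟩)⟩
    rw [← ofReal_pow, (cube_rp a.le).1, norm_mul_ph]
  by_cases hw : wc x = 0
  · refine ⟨ph (zc x), 0, _, by simpa [pf] using ph_ne hz, fun c => c.w_ne rfl, ht,
      nrm_eq (Or.inl (ph_ne hz)) (Real.sqrt_pos.2 (norm_pos_iff.2 hz)) ?_ (by simp [hw]) rfl,
      Or.inr (Or.inr ⟨rfl, norm_ph hz⟩)⟩
    rw [← ofReal_pow, Real.sq_sqrt (norm_nonneg _), norm_mul_ph]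
  refine ⟨_, _, _, fun c => hn ?_, hn, ht, nrm_self h0, Or.inl (mul_ne_zero hz hw)⟩
  simpa [Near, c] using pow_pos (normSq_pos.2 hz) 3

theorem ev_one {F : Type} [TopologicalSpace F] {ψ : F → ℂ × ℂ × ℝ} {y : F} (h : ContinuousAt ψ y)
    (h0 : (ψ y).1 ≠ 0 ∨ (ψ y).2.1 ≠ 0) :
    ∀ᶠ u in 𝓝 y, ((ψ u).1 ≠ 0 ∨ (ψ u).2.1 ≠ 0) ∧ ‖N3 (ψ u)‖ = 1 :=
  (ev_zw h.fst h.snd.fst h0).mono fun _ a => ⟨a, norm_nrm a _⟩

theorem push {γ : ℝ → ℂ × ℂ × ℝ} {x : S4} (h : DifferentiableAt ℝ γ 0)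
    (h0 : (γ 0).1 ≠ 0 ∨ (γ 0).2.1 ≠ 0) (hx : N3 (γ 0) = x) : ∃ v, Tangent [] x v ∧
      ∀ (f : E 5 → ℝ) (d : ℝ), Sm f → HasDerivAt (fun s => f (N3 (γ s))) d 0 →
        fderiv ℝ f x v = d := by
  have a := (((cd h0).differentiableAt (by simp)).comp 0 h).hasDerivAt
  exact ⟨_, curve_tangent (by simp) hx a ((ev_one h.continuousAt h0).mono fun _ b => ⟨b.2, by simp⟩),
    fun f d hf hd => curve_deriv (hf.diff x) hx a hd⟩

theorem crit {n i : ℕ} {es : List (E 5 → ℝ)} {k : E 5 → ℝ} {x : S4} {ψ : E n → ℂ × ℂ × ℝ}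
    {G : ℂ × ℂ × ℝ → ℂ × ℝ × ℝ} {L : E n →L[ℝ] ℂ × ℝ × ℝ} {c : Fin n → ℝ}
    (h : ContDiffAt ℝ ∞ ψ 0) (h0 : (ψ 0).1 ≠ 0 ∨ (ψ 0).2.1 ≠ 0) (hx : N3 (ψ 0) = x)
    (hG : DifferentiableAt ℝ G (ψ 0))
    (hw : ∀ (r : ℝ) z w t, 0 < r → G (r ^ 2 * z, r ^ 3 * w, t) = G (z, w, t))
    (hL : HasFDerivAt (fun y => G (ψ y)) L 0) (inj : Function.Injective L)
    (he : ∀ᶠ y in 𝓝 0, ∀ e ∈ es, e (N3 (ψ y)) = 0) (h4 : ∀ j, c j ≠ 0) (h5 : {j | c j < 0}.ncard = i)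
    (h6 : (fun y => k (N3 (ψ y)) - k x - ∑ j, c j * y j ^ 2) =o[𝓝 0] fun y => ‖y‖ ^ 2) :
    Crit n es k i x := by
  have a : ContDiffAt ℝ ∞ (fun y => N3 (ψ y)) 0 := ContDiffAt.comp (g := N3) 0 (cd h0) h
  have b := ev_one h.continuousAt h0
  refine ⟨_, c, a, hx, ?_, (b.and he).mono fun _ u => ⟨u.1.2, u.2⟩, h4, h5, h6⟩
  obtain ⟨r, hr⟩ : ∃ r, r = lam (ψ 0).1 (ψ 0).2.1 (ψ 0).2.2 := ⟨_, rfl⟩
  have r0 : 0 < r := hr ▸ lam_pos h0 _
  have r1 : (r : ℂ) ≠ 0 := ofReal_ne_zero.2 r0.ne'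
  refine inj_of (g := fun u => G ((r⁻¹ : ℝ) ^ 2 * zc u, (r⁻¹ : ℝ) ^ 3 * wc u, tt u))
    (a.differentiableAt (by simp)) ?_ (hL.congr_of_eventuallyEq (b.mono fun y u => ?_)) inj
  · have e : (((r⁻¹ : ℝ) : ℂ) ^ 2 * zc (N3 (ψ 0)), ((r⁻¹ : ℝ) : ℂ) ^ 3 * wc (N3 (ψ 0)),
        tt (N3 (ψ 0))) = ψ 0 := by
      rw [N3, zc_nrm, wc_nrm, tt_nrm, ← hr]
      refine Prod.ext ?_ (Prod.ext ?_ rfl) <;> push_cast <;> field_simp
    have d : ContDiffAt ℝ ∞ (fun u => (((r⁻¹ : ℝ) : ℂ) ^ 2 * zc u, ((r⁻¹ : ℝ) : ℂ) ^ 3 * wc u, tt u))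
        (N3 (ψ 0)) :=
      (contDiffAt_const.mul cd_zc.contDiffAt).prodMk ((contDiffAt_const.mul cd_wc.contDiffAt).prodMk
        (cd_tt (by rw [N3, one_sub_sc_nrm]; positivity)))
    exact DifferentiableAt.comp (g := G) _ (by rw [e]; exact hG) (d.differentiableAt (by simp))
  · simp only []
    rw [hw _ _ _ _ (inv_pos.2 r0), N3, zc_nrm, wc_nrm, tt_nrm, hw _ _ _ _ (lam_pos u.1 _)]

end WtP

open WtP in
theorem wt : WtStmt := fun P =>
  { one := fun _ _ t h => norm_nrm h t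
    cd := fun _ _ _ => cd
    co := fun _ _ t h => ⟨_, lam_pos h t, rfl, rfl, tt_nrm _ _ t, sc_nrm_sq _ _ t⟩
    sca := fun _ _ _ t hr h => nrm_scale h hr t
    eta := fun _ h => ⟨eta h, nrm_self (eta h)⟩
    val := fun _ _ _ => val P
    mid := fun _ _ t h => HH_nrm h t P
    fv := fun _ _ _ h h1 ht => by
      rw [← mf_far P h h1, ← bf_far (beta_hi P) h h1, ← bf_far (gam_hi P) h h1]
      exact val P (zw_ne h) ht
    nco := fun a c ha hc => ⟨Or.inl (by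
      linarith [one_sub_re (c := c * conj a ^ 6) (by simpa [ha] using hc)]),
      (af_nrm (ct_ne ha c) 0).symm.trans (af_ct ha hc 0), cf_ct0 ha c, pf_ct0 ha c⟩
    nv := fun a c t ha hc ht => by
      obtain ⟨u, v⟩ := eta_k P ht
      rw [HH_ct ha P hc, BB_ct ha P hc, BW, bf_ct ha _ hc, sc_ct_sq, u, v, one_mul, one_mul]
      exact ⟨rfl, rfl, rfl⟩
    cov := fun _ => cov
    push := fun _ _ => push
    crit := fun _ _ _ _ _ _ _ _ _ => crit }

end Pool.Agent.MP_7ebdba_gt.sm.m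

end
end MrgPart5

-- ======== part 6: formerly Pool.Agent.MP_7ebdba_gt.sm.Final
section MrgPart6

-- ======== part 0: formerly Pool.Agent.MP_7ebdba_gt.sm.n.Neg
section MrgPart0

/-! Block NEG. -/

namespace Pool.Agent.MP_7ebdba_gt.sm.n

theorem neg : NegStmt :=
  neg_of (fun _ _ _ _ _ _ _ hU hV hc hτ hμ he => glue2 hU hV hc hτ hμ he) side torus zero

end Pool.Agent.MP_7ebdba_gt.sm.n

end MrgPart0

-- ======== part 1: formerly Pool.Agent.MP_7ebdba_gt.sm.Main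
section MrgPart1

/-! Smooth form: assembly of all blocks except block P. -/

namespace Pool.Agent.MP_7ebdba_gt.sm

theorem model : ModelStmt :=
  m.model_of m.smo m.wt m.dirs m.cases m.cz m.cw m.ctt m.core m.asm

theorem smooth_of_p (h : PStmt) : SmoothStmt :=
  smooth_of n.neg np (pos_of Prf.prof model (glue_of (lam_of lift)) trans h)

end Pool.Agent.MP_7ebdba_gt.sm

end MrgPart1

-- ======== part 2: formerly Pool.Agent.MP_7ebdba_gt.sm.p.Base1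
section MrgPart2

/-! Block P, row BASE: the base map of the regluing and its action on wall holonomies. -/

open scoped Topology ComplexConjugate
open Set Filter Complex

noncomputable section

namespace Pool.Agent.MP_7ebdba_gt.sm.p

open MP_e1dc65_gt

namespace Base1

theorem wdS : WD Sh (fun y : V3 => y.1.im) NS := by
  refine ⟨by fun_prop, ?_, ?_, ?_⟩
  · intro j
    have c1 : Continuous fun y : V3 => y.1.re := by fun_prop
    fin_cases j
    · exact isOpen_lt c1 continuous_const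
    · exact (isOpen_lt continuous_const c1).inter
        ((isOpen_lt c1 continuous_const).inter (isOpen_lt continuous_const continuous_snd))
    · exact (isOpen_lt continuous_const c1).inter
        ((isOpen_lt c1 continuous_const).inter (isOpen_lt continuous_snd continuous_const))
    · exact isOpen_lt continuous_const c1
  · intro i j x _ hi hj
    fin_cases i <;> fin_cases j <;> simp [NS] at hi hj ⊢ <;> linarith [hi, hj]
  · rintro x ⟨⟨h1, -⟩, h2, h3⟩ h0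
    have e : nq x = x.1.re ^ 2 + x.2 ^ 2 := by
      simp only [nq, normSq_apply, h0]; ring
    have a0 : x.1.re ≠ 0 := fun h => h2 (Complex.ext h h0)
    have a1 : x.1.re ≠ 1 := fun h => h3 (Complex.ext h h0)
    rcases lt_or_gt_of_ne a0 with b | b
    · exact ⟨0, b⟩
    rcases lt_or_gt_of_ne a1 with c | c
    · rcases lt_trichotomy x.2 0 with d | d | d
      · exact ⟨2, b, c, d⟩
      · exfalso
        rw [d] at e
        nlinarith
      · exact ⟨1, b, c, d⟩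
    · exact ⟨3, c⟩

/-- a point of the shell on the wall, in coordinates -/
theorem pt {y : V3} (h : y ∈ Sh0) (h0 : y.1.im = 0) :
    ∃ r : ℝ, 8 / 5 < r ∧ r < 17 / 10 ∧ r ^ 2 = y.1.re ^ 2 + y.2 ^ 2 ∧
      ∀ e c, (c < lat e y ↔ c * r < lam0 e y) ∧ (lat e y < c ↔ lam0 e y < c * r) := by
  obtain ⟨h1, h2⟩ := h
  have e : nq y = y.1.re ^ 2 + y.2 ^ 2 := by
    simp only [nq, normSq_apply, h0]; ring
  have p : 0 < nq y := by linarith
  have s := Real.sq_sqrt p.le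
  have q := Real.sqrt_pos.2 p
  refine ⟨√(nq y), by nlinarith, by nlinarith, by rw [s, e], fun e c => ⟨?_, ?_⟩⟩
  · rw [lat, lt_div_iff₀ q]
  · rw [lat, div_lt_iff₀ q]

/-- the map `f` of the shell acts on triples by `s` -/
def Acts (f : V3 → V3) (s : ∀ (D : Type) [Group D], D × D × D → D × D × D) : Prop :=
  ∀ (D : Type) [Group D] (v : D × D × D) (τ τ' : Tr V3 D), WS (el v) τ → WS (el (s D v)) τ' →
    ContinuousOn f Sh ∧ MapsTo f Sh Sh ∧ ∃ k, Gau Sh τ' (pb f τ) k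

theorem Acts.cm {f s} (h : Acts f s) : ContinuousOn f Sh ∧ MapsTo f Sh Sh := by
  obtain ⟨τ, h1⟩ := wdS.ex (el ((1, 1, 1) : Unit × Unit × Unit))
  obtain ⟨τ', h2⟩ := wdS.ex (el (s Unit (1, 1, 1)))
  obtain ⟨a, b, -⟩ := h Unit _ τ τ' h1 h2
  exact ⟨a, b⟩

theorem Acts.congr {f f' s s'} (h : Acts f s) (e : EqOn f' f Sh)
    (e' : ∀ (D : Type) [Group D] (v : D × D × D), s' D v = s D v) : Acts f' s' := by
  intro D _ v τ τ' h1 h2
  rw [e'] at h2
  obtain ⟨a, b, k, c⟩ := h D v τ τ' h1 h2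
  exact ⟨a.congr e, b.congr e.symm, _, c.trans (pb_congr τ e).gau⟩

theorem Acts.comp {f g s t} (hf : Acts f s) (hg : Acts g t) :
    Acts (fun y => f (g y)) fun D _ v => t D (s D v) := by
  intro D _ v τ τ' h1 h2
  obtain ⟨μ, h3⟩ := wdS.ex (el (s D v))
  obtain ⟨a, b, k, c⟩ := hf D v τ μ h1 h3
  obtain ⟨a', b', k', c'⟩ := hg D _ μ τ' h3 h2
  exact ⟨a.comp a' b', b.comp b', _,
    (c'.trans (c.pb a' b')).trans (pb_comp τ a').symm.gau⟩

theorem acts_id : Acts (fun y => y) fun _ _ v => v := by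
  intro D _ v τ τ' h1 h2
  refine ⟨continuousOn_id, fun _ h => h, _, (Wall.gau wdS h2 h1 subset_rfl 1 1 ?_).trans
    (pb_id τ fun _ _ => rfl).gau⟩
  intro j x _ _ _
  simp

theorem actsA (tw : TwStmt) {a : V3 → V3} (h : Tw (1, 0) 1 (1 / 5) (2 / 5) a) :
    Acts a fun _ _ v => stepT v := by
  intro D _ v τ τ' h1 h2
  refine tw D (1, 0) 1 (1 / 10) (1 / 5) (2 / 5) (1 / 2) a _ _ τ τ' 1 2 (by norm_num) (Or.inl rfl)
    (by norm_num) (by norm_num) (by norm_num) (by norm_num) (by norm_num) h h1 h2 ?_ ?_ ?_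
  · intro y hy l1 l2 h0
    obtain ⟨r, r1, r2, -, r4⟩ := pt hy h0
    rw [(r4 _ _).1] at l1
    rw [(r4 _ _).2] at l2
    simp only [lam0, mu0, one_mul, zero_mul, add_zero, sub_zero] at l1 l2 ⊢
    exact ⟨fun m => ⟨by linarith, by linarith, m⟩, fun m => ⟨by linarith, by linarith, m⟩⟩
  · intro n y hy hn h0 l
    obtain ⟨r, r1, r2, -, r4⟩ := pt hy.1 h0
    rw [(r4 _ _).2] at l
    simp only [lam0, one_mul, zero_mul, add_zero] at l
    fin_cases n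
    · rfl
    · rfl
    · rfl
    · exfalso
      have : 1 < y.1.re := hn
      linarith
  · intro n y hy hn h0 l
    obtain ⟨r, r1, r2, -, r4⟩ := pt hy.1 h0
    rw [(r4 _ _).1] at l
    simp only [lam0, one_mul, zero_mul, add_zero] at l
    fin_cases n
    · exfalso
      have : y.1.re < 0 := hn
      linarith
    · simp [el, stepT]
    · simp [el, stepT]
    · simp [el, stepT, mul_assoc]

theorem acts1 (tw : TwStmt) {f : V3 → V3} (h : Tw (3 / 5, 4 / 5) (-1) (1 / 5) (2 / 5) f) :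
    Acts f fun _ _ v => stepI v := by
  intro D _ v τ τ' h1 h2
  refine tw D (3 / 5, 4 / 5) (-1) (1 / 10) (1 / 5) (2 / 5) (1 / 2) f _ _ τ τ' 0 3 (by norm_num)
    (Or.inr rfl) (by norm_num) (by norm_num) (by norm_num) (by norm_num) (by norm_num) h h1 h2
    ?_ ?_ ?_
  · intro y hy l1 l2 h0
    obtain ⟨r, r1, r2, r3, r4⟩ := pt hy h0
    rw [(r4 _ _).1] at l1
    rw [(r4 _ _).2] at l2
    have e : r ^ 2 = lam0 (3 / 5, 4 / 5) y ^ 2 + mu0 (3 / 5, 4 / 5) y ^ 2 := by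
      rw [r3, lam0, mu0]; ring
    have e' : y.1.re = 3 / 5 * lam0 (3 / 5, 4 / 5) y - 4 / 5 * mu0 (3 / 5, 4 / 5) y := by
      rw [lam0, mu0]; ring
    generalize lam0 (3 / 5, 4 / 5) y = l at *
    generalize mu0 (3 / 5, 4 / 5) y = m at *
    have k : (4 / 5 * r) ^ 2 < m ^ 2 := by nlinarith
    constructor
    · intro p
      have := lt_of_pow_lt_pow_left₀ 2 p.le k
      show y.1.re < 0
      linarith
    · intro p
      have : 4 / 5 * r < -m := lt_of_pow_lt_pow_left₀ 2 (by linarith) (by rwa [neg_sq])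
      show 1 < y.1.re
      linarith
  · intro n y hy hn h0 l
    obtain ⟨r, r1, r2, r3, r4⟩ := pt hy.1 h0
    rw [(r4 _ _).2] at l
    simp only [lam0] at l
    fin_cases n
    · rfl
    · exfalso
      obtain ⟨a, b, c⟩ : 0 < y.1.re ∧ y.1.re < 1 ∧ 0 < y.2 := hn
      have : 7 / 10 * r < y.2 := lt_of_pow_lt_pow_left₀ 2 c.le (by nlinarith)
      linarith
    · rfl
    · rfl
  · intro n y hy hn h0 l
    obtain ⟨r, r1, r2, r3, r4⟩ := pt hy.1 h0
    rw [(r4 _ _).1] at l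
    simp only [lam0] at l
    fin_cases n
    · simp [el, stepI]
    · simp [el, stepI]
    · exfalso
      obtain ⟨a, b, c⟩ : 0 < y.1.re ∧ y.1.re < 1 ∧ y.2 < 0 := hn
      have : 1 < -y.2 := lt_of_pow_lt_pow_left₀ 2 (by linarith) (by nlinarith)
      linarith
    · simp [el, stepI]

theorem acts2 (tw : TwStmt) {f : V3 → V3} (h : Tw (3 / 5, 4 / 5) 1 (9 / 10) (19 / 20) f) :
    Acts f fun _ _ v => v := by
  intro D _ v τ τ' h1 h2
  refine tw D (3 / 5, 4 / 5) 1 (87 / 100) (9 / 10) (19 / 20) (97 / 100) f _ _ τ τ' 1 3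
    (by norm_num) (Or.inl rfl) (by norm_num) (by norm_num) (by norm_num) (by norm_num)
    (by norm_num) h h1 h2 ?_ (fun _ _ _ _ _ _ => rfl) ?_
  · intro y hy l1 l2 h0
    obtain ⟨r, r1, r2, r3, r4⟩ := pt hy h0
    rw [(r4 _ _).1] at l1
    rw [(r4 _ _).2] at l2
    have e : r ^ 2 = lam0 (3 / 5, 4 / 5) y ^ 2 + mu0 (3 / 5, 4 / 5) y ^ 2 := by
      rw [r3, lam0, mu0]; ring
    have e' : y.1.re = 3 / 5 * lam0 (3 / 5, 4 / 5) y - 4 / 5 * mu0 (3 / 5, 4 / 5) y := by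
      rw [lam0, mu0]; ring
    have e'' : y.2 = 4 / 5 * lam0 (3 / 5, 4 / 5) y + 3 / 5 * mu0 (3 / 5, 4 / 5) y := by
      rw [lam0, mu0]; ring
    generalize lam0 (3 / 5, 4 / 5) y = l at *
    generalize mu0 (3 / 5, 4 / 5) y = m at *
    have k : (6 / 25 * r) ^ 2 < m ^ 2 := by nlinarith
    have k' : m ^ 2 < (1 / 2 * r) ^ 2 := by nlinarith
    constructor
    · intro p
      have a := lt_of_pow_lt_pow_left₀ 2 p.le k
      have b := lt_of_pow_lt_pow_left₀ 2 (by linarith) k'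
      exact ⟨by linarith, by linarith, by linarith⟩
    · intro p
      have : 6 / 25 * r < -m := lt_of_pow_lt_pow_left₀ 2 (by linarith) (by rwa [neg_sq])
      show 1 < y.1.re
      linarith
  · intro n y hy hn h0 l
    obtain ⟨r, r1, r2, r3, r4⟩ := pt hy.1 h0
    rw [(r4 _ _).1] at l
    simp only [lam0] at l
    fin_cases n
    · exfalso
      have a : y.1.re < 0 := hn
      have : y.2 ≤ r := le_of_sq_le_sq (by nlinarith [sq_nonneg y.1.re]) (by linarith)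
      linarith
    · simp [el]
    · exfalso
      obtain ⟨a, b, c⟩ : 0 < y.1.re ∧ y.1.re < 1 ∧ y.2 < 0 := hn
      linarith
    · simp [el]

end Base1

open Base1 in
theorem base (th : ThStmt) (tw : TwStmt) : BaseStmt := by
  obtain ⟨h1, hm, a, b, f1, f2, ha, hb, ta, t1, t2, e⟩ := th
  have hb' : Acts b fun _ _ v => stepI v :=
    ((acts2 tw t2).comp (acts1 tw t1)).congr (fun y hy => e y hy.1) fun _ _ _ => rfl
  have hc : Acts (a * b : Equiv.Perm V3) fun _ _ v => step v := (actsA tw ta).comp hb'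
  have key : ∀ n : ℕ, ∃ Θ : Equiv.Perm V3, Adm Θ ∧ Acts Θ fun _ _ v => step^[n] v := by
    intro n
    induction n with
    | zero => exact ⟨1, h1, acts_id⟩
    | succ n ih =>
      obtain ⟨Θ, p, q⟩ := ih
      exact ⟨Θ * (a * b), hm _ _ p (hm _ _ ha hb),
        (q.comp hc).congr (fun _ _ => rfl) fun _ _ v => Function.iterate_succ_apply' _ _ _⟩
  intro n
  obtain ⟨Θ, p, q⟩ := key n
  exact ⟨Θ, p, q.cm.1, q.cm.2, fun D _ v τ τ' a b => (q D v τ τ' a b).2.2⟩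

end Pool.Agent.MP_7ebdba_gt.sm.p

end
end MrgPart2

-- ======== part 3: formerly Pool.Agent.MP_7ebdba_gt.sm.p.Tw
section MrgPart3

/-! Block P, row TW: the effect of a twist on wall crossing holonomies. -/

open scoped Topology
open Set Filter Complex

noncomputable section

namespace Pool.Agent.MP_7ebdba_gt.sm.p

open MP_e1dc65_gt

namespace TwP

/-- the holonomy of a full turn along a circle that crosses the wall twice -/
theorem circle {X G : Type} [TopologicalSpace X] [Group G] {T P M : Set X} {τ : Tr X G}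
    {w : X → ℝ} {c : ℝ → X} {A B : G} {ρ θ : ℝ} (h : Hol T τ) (hc : Continuous c)
    (hT : ∀ t, c t ∈ T) (hp : ∀ t, c (t + 2 * Real.pi) = c t)
    (hP : Par τ P fun x => if w x < 0 then 1 else A)
    (hM : Par τ M fun x => if w x < 0 then 1 else B)
    (mP : MapsTo c (Ioo (-Real.pi) Real.pi) P) (mM : MapsTo c (Ioo 0 (2 * Real.pi)) M)
    (hρ : 0 < ρ) (hw : ∀ t, w (c t) = ρ * Real.sin t) (h1 : -Real.pi < θ) (h2 : θ ≤ Real.pi) :
    τ _ _ (seg c hc θ (θ + 2 * Real.pi)) = if w (c θ) < 0 then A * B⁻¹ else B⁻¹ * A := by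
  have pi := Real.pi_pos
  have mul : ∀ a b d : ℝ, τ _ _ (seg c hc a d) = τ _ _ (seg c hc a b) * τ _ _ (seg c hc b d) :=
    fun a b d => h.seg_mul hc convex_univ (fun t _ => hT t) trivial trivial trivial
  have per : ∀ a b : ℝ, τ _ _ (seg c hc (a + 2 * Real.pi) (b + 2 * Real.pi)) =
      τ _ _ (seg c hc a b) := fun a b => tau_congr τ fun t => by
    rw [seg_apply, seg_apply, ← hp (a + t * (b - a))]
    congr 1
    ring
  have eP : ∀ a ∈ Ioo (-Real.pi) Real.pi, ∀ b ∈ Ioo (-Real.pi) Real.pi, τ _ _ (seg c hc a b) =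
      (if w (c a) < 0 then 1 else A)⁻¹ * if w (c b) < 0 then 1 else A := fun a ha b hb =>
    hP.tau (in_seg hc fun t ht => mP (ordConnected_Ioo.uIcc_subset ha hb ht))
  have eM : ∀ a ∈ Ioo 0 (2 * Real.pi), ∀ b ∈ Ioo 0 (2 * Real.pi), τ _ _ (seg c hc a b) =
      (if w (c a) < 0 then 1 else B)⁻¹ * if w (c b) < 0 then 1 else B := fun a ha b hb =>
    hM.tau (in_seg hc fun t ht => mM (ordConnected_Ioo.uIcc_subset ha hb ht))
  have u : ¬ w (c (Real.pi / 2)) < 0 := by rw [hw, Real.sin_pi_div_two]; linarith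
  have d : w (c (-(Real.pi / 2))) < 0 := by rw [hw, Real.sin_neg, Real.sin_pi_div_two]; linarith
  have L : τ _ _ (seg c hc (Real.pi / 2) (Real.pi / 2 + 2 * Real.pi)) = B⁻¹ * A := by
    rw [mul _ (-(Real.pi / 2) + 2 * Real.pi), per,
      eM _ ⟨by linarith, by linarith⟩ _ ⟨by linarith, by linarith⟩,
      eP _ ⟨by linarith, by linarith⟩ _ ⟨by linarith, by linarith⟩, hp, if_neg u, if_neg u,
      if_pos d, if_pos d]
    simp
  have inv : τ _ _ (seg c hc (Real.pi / 2) θ) = (τ _ _ (seg c hc θ (Real.pi / 2)))⁻¹ :=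
    eq_inv_of_mul_eq_one_right ((mul _ _ _).symm.trans (h.seg_self hc (hT θ)))
  rw [mul _ (Real.pi / 2), mul (Real.pi / 2) (Real.pi / 2 + 2 * Real.pi), per, L, inv]
  rcases h2.lt_or_eq with h2 | h2
  · rw [eP _ ⟨h1, h2⟩ _ ⟨by linarith, by linarith⟩, if_neg u]
    split_ifs <;> group
  · have z : ¬ w (c θ) < 0 := by rw [hw, h2, Real.sin_pi]; simp
    rw [eM _ ⟨by linarith, by linarith⟩ _ ⟨by linarith, by linarith⟩, if_neg u, if_neg z, if_neg z]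
    group

theorem wdS : WD Sh (fun y => y.1.im) NS := by
  have c1 : Continuous fun y : V3 => y.1.re := by fun_prop
  refine ⟨by fun_prop, fun j => ?_, fun i j x _ hi hj => ?_, fun x hx h0 => ?_⟩
  · fin_cases j
    · exact isOpen_lt c1 continuous_const
    · exact (isOpen_lt continuous_const c1).inter ((isOpen_lt c1 continuous_const).inter
        (isOpen_lt continuous_const continuous_snd))
    · exact (isOpen_lt continuous_const c1).inter ((isOpen_lt c1 continuous_const).inter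
        (isOpen_lt continuous_snd continuous_const))
    · exact isOpen_lt continuous_const c1
  · fin_cases i <;> fin_cases j <;> simp [NS] at hi hj ⊢ <;> linarith [hi, hj]
  · have h0 : x.1.im = 0 := h0
    have a0 : x.1.re ≠ 0 := fun e => hx.2.1 (Complex.ext e h0)
    have a1 : x.1.re ≠ 1 := fun e => hx.2.2 (Complex.ext e h0)
    rcases a0.lt_or_gt with a0 | a0
    · exact ⟨0, a0⟩
    rcases a1.lt_or_gt with a1 | a1
    · have a2 : x.2 ≠ 0 := fun e => by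
        have := hx.1.1
        simp only [nq, normSq_apply, h0, e] at this
        nlinarith
      rcases a2.lt_or_gt with a2 | a2
      · exact ⟨2, a0, a1, a2⟩
      · exact ⟨1, a0, a1, a2⟩
    · exact ⟨3, a1⟩

variable {e : ℝ × ℝ} {y : V3}

theorem lam_rot (he : e.1 ^ 2 + e.2 ^ 2 = 1) (φ : ℝ) (y : V3) : lam0 e (rot e φ y) = lam0 e y := by
  simp only [lam0, rot]
  linear_combination (e.1 * y.1.re + e.2 * y.2) * he

theorem mu_rot (he : e.1 ^ 2 + e.2 ^ 2 = 1) (φ : ℝ) (y : V3) :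
    mu0 e (rot e φ y) = mu0 e y * Real.cos φ - y.1.im * Real.sin φ := by
  simp only [mu0, rot]
  linear_combination ((e.1 * y.2 - e.2 * y.1.re) * Real.cos φ - y.1.im * Real.sin φ) * he

theorem im_rot (φ : ℝ) (y : V3) :
    (rot e φ y).1.im = mu0 e y * Real.sin φ + y.1.im * Real.cos φ := rfl

theorem nq_eq (he : e.1 ^ 2 + e.2 ^ 2 = 1) (y : V3) :
    nq y = lam0 e y ^ 2 + mu0 e y ^ 2 + y.1.im ^ 2 := by
  simp only [nq, lam0, mu0, normSq_apply]
  linear_combination (-(y.1.re ^ 2 + y.2 ^ 2)) * he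

theorem nq_rot (he : e.1 ^ 2 + e.2 ^ 2 = 1) (φ : ℝ) (y : V3) : nq (rot e φ y) = nq y := by
  rw [nq_eq he, nq_eq he, lam_rot he, mu_rot he, im_rot]
  linear_combination (mu0 e y ^ 2 + y.1.im ^ 2) * Real.sin_sq_add_cos_sq φ

theorem lat_rot (he : e.1 ^ 2 + e.2 ^ 2 = 1) (φ : ℝ) (y : V3) : lat e (rot e φ y) = lat e y := by
  rw [lat, lat, lam_rot he, nq_rot he]

theorem ext3 (he : e.1 ^ 2 + e.2 ^ 2 = 1) {y z : V3} (h1 : lam0 e y = lam0 e z)
    (h2 : mu0 e y = mu0 e z) (h3 : y.1.im = z.1.im) : y = z := by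
  simp only [lam0, mu0] at h1 h2
  refine Prod.ext (Complex.ext ?_ h3) ?_
  · linear_combination e.1 * h1 - e.2 * h2 - (y.1.re - z.1.re) * he
  · linear_combination e.2 * h1 + e.1 * h2 - (y.2 - z.2) * he

theorem rot_add (he : e.1 ^ 2 + e.2 ^ 2 = 1) (a b : ℝ) (y : V3) :
    rot e (a + b) y = rot e b (rot e a y) := by
  refine ext3 he (by simp only [lam_rot he]) ?_ ?_
  · simp only [mu_rot he, im_rot, Real.cos_add, Real.sin_add]; ring
  · simp only [mu_rot he, im_rot, Real.cos_add, Real.sin_add]; ring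

theorem rot_int (he : e.1 ^ 2 + e.2 ^ 2 = 1) (n : ℤ) (y : V3) :
    rot e (n * (2 * Real.pi)) y = y := by
  have h1 : Real.sin (n * (2 * Real.pi)) = 0 := by
    simpa using Real.sin_add_int_mul_two_pi 0 n
  refine ext3 he (lam_rot he _ _) ?_ ?_
  · simp [mu_rot he, h1]
  · simp [im_rot, h1]

theorem rot_zero (he : e.1 ^ 2 + e.2 ^ 2 = 1) (y : V3) : rot e 0 y = y := by
  simpa using rot_int he 0 y

theorem cont_rot (e : ℝ × ℝ) : Continuous fun q : ℝ × V3 => rot e q.1 q.2 := by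
  refine Continuous.prodMk ?_ (by unfold lam0 mu0; fun_prop)
  simp only [Complex.mk_eq_add_mul_I]
  unfold lam0 mu0
  fun_prop

theorem cont_lat (e : ℝ × ℝ) : ContinuousOn (lat e) {y | 0 < nq y} :=
  ContinuousOn.div (by unfold lam0; fun_prop) (by unfold nq; fun_prop) fun _ hy =>
    (Real.sqrt_pos.2 hy).ne'

theorem sh_pos (h : y ∈ Sh0) : 0 < nq y := lt_trans (by norm_num) h.1

theorem off_axis (he : e.1 ^ 2 + e.2 ^ 2 = 1) (h : y ∈ Sh0) (h1 : -1 < lat e y) (h2 : lat e y < 1)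
    (hi : y.1.im = 0) : mu0 e y ≠ 0 := fun hm => by
  have h3 := nq_eq he y
  have h4 := Real.sqrt_pos.2 (sh_pos h)
  have h5 := Real.sq_sqrt (sh_pos h).le
  rw [lat, lt_div_iff₀ h4] at h1
  rw [lat, div_lt_iff₀ h4] at h2
  rw [hi, hm] at h3
  nlinarith

theorem ns_pl {n : Fin 4} (h : y ∈ NS n) : y.1 ∈ Pl := by
  constructor <;> intro e <;> fin_cases n <;> simp [NS, e] at h <;> linarith

end TwP

open TwP

theorem tw : TwStmt := by
  intro D _ e σ a c1 c2 b f g g' τ τ' i j he hσ ha hac hc hcb hb ⟨φ, hφ, φ0, φ1, hf⟩ hτ hτ' hN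
    hlo hhi
  have ne : ∀ y ∈ Sh0, a < lat e y → lat e y < b → y.1.im = 0 → mu0 e y ≠ 0 := fun y h h1 h2 =>
    off_axis he h (by linarith) (by linarith)
  have band : ∀ y ∈ Sh0, a < lat e y → lat e y < b → y ∈ Sh := fun y h h1 h2 => by
    refine ⟨h, ?_⟩
    by_cases hi : y.1.im = 0
    · rcases (ne y h h1 h2 hi).lt_or_gt with m | m
      · exact ns_pl ((hN y h h1 h2 hi).2 m)
      · exact ns_pl ((hN y h h1 h2 hi).1 m)
    · exact ⟨fun e => hi (by simp [e]), fun e => hi (by simp [e])⟩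
  have rsh : ∀ t, ∀ y ∈ Sh0, rot e t y ∈ Sh0 := fun t y h => by
    simpa only [Sh0, mem_ofPred_eq, nq_rot he] using h
  have rband : ∀ t, ∀ y ∈ Sh0, a < lat e y → lat e y < b → rot e t y ∈ Sh := fun t y h h1 h2 =>
    band _ (rsh t y h) (by rwa [lat_rot he]) (by rwa [lat_rot he])
  have low : ∀ r : ℝ, ∀ y ∈ Sh, lat e y < b → rot e (r * φ (lat e y)) y ∈ Sh := fun r y h h2 => by
    rcases le_or_gt (lat e y) c1 with h1 | h1
    · rwa [φ0 _ h1, mul_zero, rot_zero he]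
    · exact rband _ y h.1 (by linarith) h2
  have high : ∀ y ∈ Sh, c2 < lat e y → f y = y := fun y h h2 => by
    rw [hf y h.1, φ1 _ h2.le, rot_int he]
  have cl : ContinuousOn (fun y => φ (lat e y)) Sh :=
    hφ.comp_continuousOn ((cont_lat e).mono fun y h => sh_pos h.1)
  have cf : ContinuousOn f Sh :=
    ((cont_rot e).comp_continuousOn (cl.prodMk continuousOn_id)).congr fun y h => hf y h.1
  have mf : MapsTo f Sh Sh := fun y h => by
    rcases lt_or_ge (lat e y) b with h2 | h2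
    · simpa [hf y h.1] using low 1 y h h2
    · rwa [high y h (by linarith)]
  refine ⟨cf, mf, ?_⟩
  let U : Bool → Set V3 := fun s => {y | 0 < nq y} ∩ lat e ⁻¹' cond s (Iio b) (Ioi c2)
  have hpos : IsOpen {y : V3 | 0 < nq y} := isOpen_lt continuous_const (by unfold nq; fun_prop)
  obtain ⟨k, hk, hk'⟩ := gau_homotopy (A := Sh ∩ U true) hτ.hol
    (H := fun q => rot e (q.1 * φ (lat e q.2)) q.2)
    ((cont_rot e).comp_continuousOn ((continuousOn_fst.mul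
      (cl.comp continuousOn_snd fun q hq => hq.2.1)).prodMk continuousOn_snd))
    fun q hq => low _ _ hq.2.1 hq.2.2.2
  let κ : V3 → D := fun y => if y.1.im < 0 then (g i * (g j)⁻¹) ^ σ else ((g j)⁻¹ * g i) ^ σ
  have turn : ∀ y ∈ Sh, c2 < lat e y → lat e y < b → k y = κ y := fun y h h1 h2 => by
    have h0 : a < lat e y := by linarith
    let z : ℂ := ⟨mu0 e y, y.1.im⟩
    have z0 : z ≠ 0 := fun hz =>
      ne y h.1 h0 h2 (congrArg im hz) (congrArg re hz)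
    let p := rot e (-arg z) y
    have nz := norm_pos_iff.2 z0
    have e1 : mu0 e y = ‖z‖ * Real.cos (arg z) := (norm_mul_cos_arg z).symm
    have e2 : y.1.im = ‖z‖ * Real.sin (arg z) := (norm_mul_sin_arg z).symm
    have p1 : mu0 e p = ‖z‖ := by
      rw [mu_rot he, Real.cos_neg, Real.sin_neg, e1, e2]
      linear_combination ‖z‖ * Real.sin_sq_add_cos_sq (arg z)
    have p2 : p.1.im = 0 := by
      rw [im_rot, Real.cos_neg, Real.sin_neg, e1, e2]; ring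
    have hcc : Continuous fun t => rot e t p := (cont_rot e).comp (Continuous.prodMk_left p)
    have pl : ∀ t, lat e (rot e t p) = lat e y := fun t => by rw [lat_rot he, lat_rot he]
    have ps : ∀ t, rot e t p ∈ Sh := fun t =>
      band _ (rsh _ _ (rsh _ _ h.1)) (by rwa [pl]) (by rwa [pl])
    have q1 : ∀ t, mu0 e (rot e t p) = ‖z‖ * Real.cos t := fun t => by
      rw [mu_rot he, p1, p2]; ring
    have q2 : ∀ t, (rot e t p).1.im = ‖z‖ * Real.sin t := fun t => by rw [im_rot, p1, p2]; ring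
    have per : ∀ t, rot e (t + 2 * Real.pi) p = rot e t p := fun t => by
      rw [rot_add he]
      simpa using rot_int he 1 (rot e t p)
    have py : ∀ t, rot e (arg z + t) p = rot e t y := fun t => by
      rw [← rot_add he, neg_add_cancel_left]
    have py0 : rot e (arg z) p = y := by simpa [rot_zero he] using py 0
    have hP : Par τ {x | x ∈ Sh ∧ a < lat e x ∧ lat e x < b ∧ (x.1.im = 0 → 0 < mu0 e x)}
        fun x => if x.1.im < 0 then 1 else g i :=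
      hτ.par wdS (fun x hx => hx.1) _ _ fun n x hx hn h0 => by
        rw [one_mul, wdS.dis n i x hx.1 hn ((hN x hx.1.1 hx.2.1 hx.2.2.1 h0).1 (hx.2.2.2 h0))]
    have hM : Par τ {x | x ∈ Sh ∧ a < lat e x ∧ lat e x < b ∧ (x.1.im = 0 → mu0 e x < 0)}
        fun x => if x.1.im < 0 then 1 else g j :=
      hτ.par wdS (fun x hx => hx.1) _ _ fun n x hx hn h0 => by
        rw [one_mul, wdS.dis n j x hx.1 hn ((hN x hx.1.1 hx.2.1 hx.2.2.1 h0).2 (hx.2.2.2 h0))]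
    have key := circle (w := fun x : V3 => x.1.im) hτ.hol hcc ps per hP hM
      (fun t ht => ⟨ps t, by rwa [pl], by rwa [pl], fun h3 => by
        rw [q2, mul_eq_zero, Real.sin_eq_zero_iff_of_lt_of_lt ht.1 ht.2] at h3
        rw [q1, h3.resolve_left nz.ne', Real.cos_zero, mul_one]
        exact nz⟩)
      (fun t ht => ⟨ps t, by rwa [pl], by rwa [pl], fun h3 => by
        have h4 : Real.sin (t - Real.pi) = 0 := by
          rw [Real.sin_sub_pi, neg_eq_zero]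
          exact (mul_eq_zero.1 (q2 t ▸ h3)).resolve_left nz.ne'
        rw [Real.sin_eq_zero_iff_of_lt_of_lt (by linarith [ht.1]) (by linarith [ht.2]),
          sub_eq_zero] at h4
        rw [q1, h4, Real.cos_pi]
        linarith⟩) nz q2 (neg_pi_lt_arg z) (arg_le_pi z)
    replace key := key.trans (congrArg (fun x : V3 =>
      if x.1.im < 0 then g i * (g j)⁻¹ else (g j)⁻¹ * g i) py0)
    rw [hk' y ⟨h, sh_pos h.1, h2⟩ _ _ (seg _ hcc (arg z) (arg z + σ * (2 * Real.pi))) fun t => by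
      rw [seg_apply, py, φ1 _ h1.le, add_sub_cancel_left]]
    rcases hσ with rfl | rfl
    · simp only [κ, zpow_one]
      rw [← key]
      exact tau_congr τ fun t => by simp
    · have h3 := hτ.hol.symm (in_seg hcc (a := arg z) (b := arg z + 2 * Real.pi) fun t _ => ps t)
      rw [key] at h3
      simp only [κ, zpow_neg, zpow_one]
      rw [← apply_ite Inv.inv, ← h3]
      refine tau_congr τ fun t => ?_
      rw [Path.symm_apply, Function.comp, seg_apply, seg_apply, ← per, unitInterval.coe_symm_eq]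
      congr 1
      push_cast
      ring
  have g0 : Gau (Sh ∩ U true) τ' (pb f τ) k := by
    have a1 := (hτ.gau wdS hτ' (S := Sh ∩ U true) inter_subset_left 1 1 fun n x hx hn h0 => by
      rw [hlo n x hx.1 hn h0 hx.2.2]; simp).symm
    have a2 := (pb_id (S := Sh ∩ U true) τ (g := fun y => rot e (0 * φ (lat e y)) y) fun y _ => by
      rw [zero_mul, rot_zero he]).gau
    have a3 := (pb_congr (A := Sh ∩ U true) τ (f := fun y => rot e (1 * φ (lat e y)) y) (f' := f)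
      fun y hy => by simp [hf y hy.1.1]).gau
    exact (((a1.trans a2).trans hk).trans a3).congr fun y _ => by simp
  have g1 : Gau (Sh ∩ U false) τ' (pb f τ) κ := by
    have a1 := (hτ.gau wdS hτ' (S := Sh ∩ U false) inter_subset_left ((g i * (g j)⁻¹) ^ σ)⁻¹
      (((g j)⁻¹ * g i) ^ σ)⁻¹ fun n x hx hn h0 => by
        rw [hhi n x hx.1 hn h0 (lt_trans (by linarith) hx.2.2), inv_inv, zpow_neg]).symm
    have a2 := (pb_id (S := Sh ∩ U false) τ (g := f) fun y hy => high y hy.1 hy.2.2).gau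
    refine (a1.trans a2).congr fun y _ => ?_
    simp only [κ, mul_one]
    split_ifs <;> rw [inv_inv]
  obtain ⟨k', h1, -⟩ := gau_glue (U := U) (c := fun s => cond s k κ) hτ'.hol
    (hol_pb hτ.hol cf mf)
    (fun s => (cont_lat e).isOpen_inter_preimage hpos (by cases s; exacts [isOpen_Ioi, isOpen_Iio]))
    (fun y hy => (lt_or_ge (lat e y) b).elim (fun h => ⟨true, sh_pos hy.1, h⟩)
      fun h => ⟨false, sh_pos hy.1, lt_of_lt_of_le hcb h⟩)
    (by rintro (_ | _); exacts [g1, g0]) (by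
      rintro (_ | _) (_ | _) y hy h1 h2
      exacts [rfl, (turn y hy h1.2 h2.2).symm, turn y hy h2.2 h1.2, rfl])
  exact ⟨k', h1⟩

end Pool.Agent.MP_7ebdba_gt.sm.p

end
end MrgPart3

-- ======== part 4: formerly Pool.Agent.MP_7ebdba_gt.sm.p.W1W
section MrgPart4

/-! Block P, rows W1W and LOC: the inner part of the middle wall; local charts at the exceptional
orbits. -/

open scoped Topology ComplexConjugate
open Set Filter Complex

noncomputable section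

namespace Pool.Agent.MP_7ebdba_gt.sm.p

open MP_e1dc65_gt

/-! ### turning the two halves into the page -/

/-- a sixth root of the sign -/
def lc (c : Bool) : ℂ := if c then 1 else ex (Real.pi / 6)

theorem norm_lc (c : Bool) : ‖lc c‖ = 1 := by
  cases c
  · exact norm_ex _
  · exact norm_one

theorem lc_ne (c : Bool) : lc c ≠ 0 := norm_ne_zero_iff.1 (by simp [norm_lc])

theorem lc_pow (c : Bool) : lc c ^ 6 = ((if c then 1 else -1 : ℝ) : ℂ) := by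
  cases c
  · have e : ((6 : ℕ) : ℝ) * (Real.pi / 6) = Real.pi := by push_cast; ring
    simp only [lc, Bool.false_eq_true, if_false, ex_pow, e, ex_pi]
    simp
  · simp [lc]

theorem pl_lc (c : Bool) (x : C2) : (pl (ac (lc c) x)).re = (if c then 1 else -1) * (pl x).re ∧
    (pl (ac (lc c) x)).im = (if c then 1 else -1) * (pl x).im := by
  rw [pl_ac, lc_pow, re_ofReal_mul, im_ofReal_mul]
  exact ⟨rfl, rfl⟩

theorem lc_Pg {c : Bool} {x : C2} (h : x ∈ N3) (h1 : (pl x).im = 0)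
    (h2 : 0 < (if c then 1 else -1) * (pl x).re) : ac (lc c) x ∈ Pg ∧ pl (ac (lc c) x) ≠ 0 := by
  obtain ⟨e1, e2⟩ := pl_lc c x
  refine ⟨⟨(N3_ac (norm_lc c)).2 h, by rw [e2, h1, mul_zero], by rw [e1]; exact h2.le⟩, fun e => ?_⟩
  rw [← e1, e] at h2
  exact lt_irrefl _ h2

theorem cont_ac1 (l : ℂ) : Continuous (ac l) := by
  unfold ac
  fun_prop

theorem cont_lc (c : Bool) : Continuous fun y : YY => ac (lc c) y.1 :=
  (cont_ac1 _).comp continuous_fst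

/-! ### row W1W -/

theorem agree_Sh {D : Type} [Group D] {g h : D} {σ : Tr V3 D} {τ : Tr ℂ D}
    (hσ : WS (el (g, g, h)) σ) (hτ : WP g h τ) : Agree Sh σ (pb Prod.fst τ) := by
  have m : MapsTo (Prod.fst : V3 → ℂ) Sh Pl := fun y hy => hy.2
  have d : WD Sh (fun y => y.1.im) fun j => (Prod.fst : V3 → ℂ) ⁻¹' NP j :=
    ⟨wd_Sh.cont, fun j => (wd_Pl.op j).preimage continuous_fst,
      fun i j y hy => wd_Pl.dis i j y.1 hy.2, fun y hy => wd_Pl.cov y.1 hy.2⟩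
  refine Wall.agree wd_Sh d hσ (Wall.pb hτ continuousOn_fst m) fun j j' y _ a b _ => ?_
  fin_cases j <;> fin_cases j' <;> simp [NS, NP, el] at a b ⊢ <;> exfalso <;> linarith [a, b]

theorem w1w : W1WStmt := by
  intro P lt l D _ g h σ hP hR hσ
  obtain ⟨τ, hτ⟩ := wd_Pl.ex (![1, g, h] : Fin 3 → D)
  obtain ⟨lh, h1, -, h2⟩ := hP.orb D g h τ hR hτ
  let U : Bool → Set YY := fun c => {y | 0 < (if c then 1 else -1) * (pl y.1).re}
  have hU : ∀ c, IsOpen (U c) := fun c => isOpen_lt continuous_const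
    (continuous_const.mul (continuous_re.comp (cont_pl.comp continuous_fst)))
  have hH : ∀ c, Hol (H1 P ∩ Wy ∩ U c) (mp (inc c) (pb (fun y : YY => ac (lc c) y.1) lh)) :=
    fun c => hol_mp (hol_pb h1 (cont_lc c).continuousOn fun y hy =>
      (lc_Pg hy.1.1.1 hy.1.1.2.2 hy.2).1) _
  have hc : ∀ y ∈ H1 P ∩ Wy, ∃ c, y ∈ U c := fun y hy => by
    have a : (pl y.1).re ≠ 0 := fun e => hy.2.2.1 (Complex.ext e hy.1.2.2)
    rcases a.lt_or_gt with a | a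
    · exact ⟨false, by simpa [U] using a⟩
    · exact ⟨true, by simpa [U] using a⟩
  have he : ∀ c c', Agree (H1 P ∩ Wy ∩ U c ∩ U c')
      (mp (inc c) (pb (fun y : YY => ac (lc c) y.1) lh))
      (mp (inc c') (pb (fun y : YY => ac (lc c') y.1) lh)) := fun c c' a b γ hγ => by
    have a1 := hγ.source.1.2
    have a2 := hγ.source.2
    obtain rfl : c = c' := by
      cases c <;> cases c' <;> simp [U] at a1 a2 ⊢ <;> linarith
    rfl
  obtain ⟨ρ, r1, r2⟩ := glue hU hc hH he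
  refine ⟨ρ, r1, fun c => Agree.trans (Agree.mp ?_ _) ((r2 c).mono fun y hy => ?_)⟩
  · have m1 : MapsTo qy (Cc c \ KY) Sh := fun y hy => qy_Sh hy.1.1 hy.1.2.1 hy.2
    have c1 : ContinuousOn qy (Cc c \ KY) := cont_qy.mono fun y hy => hy.1.2.1
    have m2 : MapsTo (fun y : YY => ac (lc c) y.1) (Cc c \ KY) (Pg \ KK) := fun y hy =>
      ⟨(lc_Pg hy.1.1.1 hy.1.2.2.1 hy.1.2.2.2).1, fun a => hy.2 ((KK_ac (lc_ne c)).1 a)⟩
    have e : EqOn (fun y : YY => uu (rho (ac (lc c) y.1))) (fun y => (qy y).1) (Cc c \ KY) := by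
      intro y hy
      obtain ⟨-, a⟩ := lc_Pg hy.1.1.1 hy.1.2.2.1 hy.1.2.2.2
      obtain ⟨r, hr, e⟩ := toM_ex a
      have f : ¬ near (1 / 10) (ac (lc c) y.1) := fun b =>
        Wy_far hy.1.2.1 (((near_ac (lc_ne c)).1 b).mono (by norm_num))
      show uu (rho (ac (lc c) y.1)) = uu y.1
      rw [rho_far f, e, uu_ac (ofReal_ne_zero.2 hr.ne'), uu_ac (lc_ne c)]
    have s1 := (agree_Sh hσ hτ).pb c1 m1
    have s2 := (pb_comp (f := Prod.fst) τ c1).symm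
    have s3 := pb_congr τ e
    have s4 := pb_comp (f := fun x => uu (rho x)) (B := Cc c \ KY) τ (cont_lc c).continuousOn
    have s5 := h2.pb (cont_lc c).continuousOn m2
    exact s1.trans (s2.trans (s3.trans (s4.trans s5)))
  · have a := Wy_Hh P hy.1.2.1
    have b := hy.1.2.1.2.2
    exact ⟨⟨⟨hy.1.1.1, by linarith, hy.1.2.2.1⟩, hy.1.2.1⟩, hy.1.2.2.2⟩

/-! ### row LOC -/

theorem pc_punct {δ : ℝ} (hδ : 0 < δ) (t : ℝ) :
    IsPathConnected (Metric.ball ((0 : ℂ), t) δ \ {q | q.1 = 0}) := by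
  have h : IsPathConnected ((Ioo 0 δ ×ˢ (univ : Set ℝ)) ×ˢ Metric.ball t δ) :=
    (((convex_Ioo 0 δ).prod convex_univ).prod (convex_ball t δ)).isPathConnected
      ⟨((δ / 2, 0), t), ⟨⟨by simpa using hδ, by simpa using hδ⟩, trivial⟩, Metric.mem_ball_self hδ⟩
  have e : Metric.ball ((0 : ℂ), t) δ \ {q | q.1 = 0} =
      (fun q : (ℝ × ℝ) × ℝ => ((q.1.1 * ex q.1.2 : ℂ), q.2)) ''
        ((Ioo 0 δ ×ˢ (univ : Set ℝ)) ×ˢ Metric.ball t δ) := by
    rw [← ball_prod_same]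
    ext ⟨z, s⟩
    constructor
    · rintro ⟨⟨a, b⟩, c⟩
      exact ⟨((‖z‖, arg z), s), ⟨⟨⟨norm_pos_iff.2 c, by simpa using a⟩, trivial⟩, b⟩,
        Prod.ext (norm_mul_exp_arg_mul_I z) rfl⟩
    · rintro ⟨⟨⟨r, θ⟩, s'⟩, ⟨⟨⟨a, b⟩, -⟩, c⟩, e⟩
      obtain ⟨rfl, rfl⟩ := Prod.mk.inj e
      have n : ‖(r * ex θ : ℂ)‖ = r := by
        rw [norm_mul, norm_ex, mul_one, norm_real, Real.norm_of_nonneg a.le]
      exact ⟨⟨by simpa only [mem_ball_zero_iff, n] using b, c⟩,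
        norm_pos_iff.1 (n.symm ▸ a)⟩
  rw [e]
  exact h.image (((continuous_ofReal.comp continuous_fst.fst).mul
    (cont_ex.comp continuous_fst.snd)).prodMk continuous_snd)

/-- a chart in which `K` is a line -/
theorem loc_chart {X : Type} [TopologicalSpace X] {T K W : Set X} {y : X} {G : X → ℂ × ℝ}
    {F : ℂ × ℝ → X} {B : Set (ℂ × ℝ)} (hW : IsOpen W) (hG : ContinuousOn G W) (hB : IsOpen B)
    (hF : ContinuousOn F B) (m : MapsTo F B T) (GF : ∀ q ∈ B, G (F q) = q)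
    (FG : ∀ x ∈ T ∩ W, G x ∈ B ∧ F (G x) = x ∧ (x ∈ K ↔ (G x).1 = 0)) (hy : y ∈ T ∩ W)
    (hK : y ∈ K) {O : Set X} (hO : O ∈ 𝓝 y) :
    ∃ V, IsOpen V ∧ y ∈ V ∧ V ⊆ O ∧ SC (T ∩ V) ∧ IsPathConnected ((T ∩ V) \ K) := by
  obtain ⟨h1, h2, h3⟩ := FG y hy
  have h4 : F ⁻¹' (interior O ∩ W) ∈ 𝓝 (G y) :=
    (hF.continuousAt (hB.mem_nhds h1)).preimage_mem_nhds
      (h2.symm ▸ inter_mem (interior_mem_nhds.2 hO) (hW.mem_nhds hy.2))
  obtain ⟨δ, hδ, hb⟩ := Metric.mem_nhds_iff.1 (inter_mem (hB.mem_nhds h1) h4)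
  have e0 : G y = (0, (G y).2) := Prod.ext (h3.1 hK) rfl
  have m1 : MapsTo F (Metric.ball (G y) δ) (T ∩ (interior O ∩ (W ∩ G ⁻¹' Metric.ball (G y) δ))) :=
    fun q hq => ⟨m (hb hq).1, (hb hq).2.1, (hb hq).2.2, by rwa [mem_preimage, GF q (hb hq).1]⟩
  have c1 : ContinuousOn F (Metric.ball (G y) δ) := hF.mono fun q hq => (hb hq).1
  refine ⟨interior O ∩ (W ∩ G ⁻¹' Metric.ball (G y) δ),
    isOpen_interior.inter (hG.isOpen_inter_preimage hW Metric.isOpen_ball),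
    ⟨mem_interior_iff_mem_nhds.2 hO, hy.2, Metric.mem_ball_self hδ⟩,
    fun x hx => interior_subset hx.1, ?_, ?_⟩
  · exact sc_retract (sc_star (Metric.mem_ball_self hδ)
      ((convex_ball _ _).starConvex (Metric.mem_ball_self hδ))) c1 m1
      (hG.mono fun x hx => hx.2.2.1) (fun x hx => hx.2.2.2) fun x hx => (FG x ⟨hx.1, hx.2.2.1⟩).2.1
  · have p := pc_punct hδ (G y).2
    rw [← e0] at p
    have e : (T ∩ (interior O ∩ (W ∩ G ⁻¹' Metric.ball (G y) δ))) \ K =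
        F '' (Metric.ball (G y) δ \ {q | q.1 = 0}) := by
      ext x
      constructor
      · rintro ⟨a, b⟩
        obtain ⟨-, a1, a2⟩ := FG x ⟨a.1, a.2.2.1⟩
        exact ⟨G x, ⟨a.2.2.2, fun c => b (a2.2 c)⟩, a1⟩
      · rintro ⟨q, ⟨a, b⟩, rfl⟩
        refine ⟨m1 a, fun c => b ?_⟩
        have := (FG _ ⟨(m1 a).1, (m1 a).2.2.1⟩).2.2.1 c
        rwa [GF q (hb a).1] at this
    rw [e]
    exact p.image' (c1.mono sdiff_subset)

/-- charts of the Milnor fibre at the points of the exceptional orbits -/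
theorem mil_chart {p : C2} (hp : p ∈ MM) (hK : p ∈ KK) :
    ∃ (W : Set C2) (B : Set ℂ) (g : C2 → ℂ) (f : ℂ → C2), IsOpen W ∧ IsOpen B ∧ Continuous g ∧
      ContinuousOn f B ∧ MapsTo f B MM ∧ (∀ u, g (f u) = u) ∧ p ∈ W ∧
      ∀ q ∈ MM, q ∈ W → g q ∈ B ∧ f (g q) = q ∧ (q ∈ KK ↔ g q = 0) := by
  have hp' : p.1 ^ 3 - p.2 ^ 2 = 1 := hp
  rcases hK with h | h
  · have h1 : p.2 ^ 2 = -1 := by
      rw [h] at hp'
      linear_combination -hp'
    have h0 : p.2 ≠ 0 := fun e => by simp [e] at h1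
    have e : ∀ q ∈ MM, 1 - q.1 ^ 3 = (p.2⁻¹ * q.2) ^ 2 := fun q (hq : q.1 ^ 3 - q.2 ^ 2 = 1) => by
      rw [mul_pow, inv_pow, h1]
      linear_combination -hq
    refine ⟨{q | 0 < (p.2⁻¹ * q.2).re}, {z | 1 - z ^ 3 ∈ slitPlane}, fun q => q.1,
      fun z => (z, p.2 * Complex.sqrt (1 - z ^ 3)), isOpen_lt continuous_const (by fun_prop),
      isOpen_slitPlane.preimage (by fun_prop), continuous_fst,
      continuousOn_id.prodMk (continuousOn_const.mul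
        (continuousOn_sqrt.comp (by fun_prop) fun z hz => hz)), fun z _ => ?_, fun _ => rfl,
      by rw [mem_ofPred_eq, inv_mul_cancel₀ h0]; exact one_pos, fun q a b => ⟨?_, ?_, fun c => c.resolve_right fun c => ?_, Or.inl⟩⟩
    · show z ^ 3 - (p.2 * Complex.sqrt (1 - z ^ 3)) ^ 2 = 1
      rw [mul_pow, Shape.sqrt_sq, h1]
      ring
    · show 1 - q.1 ^ 3 ∈ slitPlane
      rw [e q a]
      exact Shape.sq_slit b
    · show (q.1, p.2 * Complex.sqrt (1 - q.1 ^ 3)) = q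
      rw [e q a, Shape.sq_sqrt b, mul_inv_cancel_left₀ h0]
    · simp [c] at b
  · have h1 : p.1 ^ 3 = 1 := by
      rw [h] at hp'
      linear_combination hp'
    have h0 : p.1 ≠ 0 := fun e => by simp [e] at h1
    have e : ∀ q ∈ MM, 1 + q.2 ^ 2 = (p.1⁻¹ * q.1) ^ 3 := fun q (hq : q.1 ^ 3 - q.2 ^ 2 = 1) => by
      rw [mul_pow, inv_pow, h1]
      linear_combination -hq
    refine ⟨{q | Shape.Sec (p.1⁻¹ * q.1)}, {w | 1 + w ^ 2 ∈ slitPlane}, fun q => q.2,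
      fun w => (p.1 * Shape.cbrt (1 + w ^ 2), w), Shape.isOpen_sec.preimage (by fun_prop),
      isOpen_slitPlane.preimage (by fun_prop), continuous_snd,
      (continuousOn_const.mul (Shape.cont_cbrt.comp (f := fun w => 1 + w ^ 2) (by fun_prop)
        fun z hz => hz)).prodMk continuousOn_id, fun w _ => ?_, fun _ => rfl,
      by rw [mem_ofPred_eq, inv_mul_cancel₀ h0]; simp [Shape.Sec],
      fun q a b => ⟨?_, ?_, fun c => c.resolve_left fun c => ?_, Or.inr⟩⟩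
    · show (p.1 * Shape.cbrt (1 + w ^ 2)) ^ 3 - w ^ 2 = 1
      rw [mul_pow, Shape.cbrt_cube, h1]
      ring
    · show 1 + q.2 ^ 2 ∈ slitPlane
      rw [e q a]
      exact Shape.Sec.cube b
    · show (p.1 * Shape.cbrt (1 + q.2 ^ 2), q.2) = q
      rw [e q a, Shape.Sec.cbrt b, mul_inv_cancel_left₀ h0]
    · simp [c, Shape.Sec] at b

theorem MM_ne {p : C2} (hp : p ∈ MM) : pl p ≠ 0 ∧ p ≠ 0 := by
  have h : pl p = 1 := hp
  refine ⟨h ▸ one_ne_zero, fun e => ?_⟩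
  simp [e, pl, pf] at h

theorem loc : LocStmt := by
  intro c y hy O hO
  have hl := lc_ne c
  have hi : (lc c)⁻¹ ≠ 0 := inv_ne_zero hl
  have ni : ‖(lc c)⁻¹‖ = 1 := by rw [norm_inv, norm_lc, inv_one]
  -- the passage to the Milnor fibre
  have to1 : ∀ x ∈ Cc c, toM (ac (lc c) x.1) ∈ MM ∧ xx (toM (ac (lc c) x.1)) = xx x.1 ∧
      (toM (ac (lc c) x.1) ∈ KK ↔ x ∈ KY) ∧ ac (lc c)⁻¹ (nn (toM (ac (lc c) x.1))) = x.1 := by
    intro x hx
    obtain ⟨a, b⟩ := lc_Pg hx.1.1 hx.2.2.1 hx.2.2.2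
    obtain ⟨r, hr, e⟩ := toM_ex b
    have hr' : (r : ℂ) ≠ 0 := ofReal_ne_zero.2 hr.ne'
    refine ⟨toM_mem a b, by rw [e, xx_ac hr', xx_ac hl], by rw [e, KK_ac hr', KK_ac hl]; rfl, ?_⟩
    rw [nn_toM a.1 b, ← ac_mul, inv_mul_cancel₀ hl, ac_one]
  obtain ⟨W, B, g, f, oW, oB, cg, cf, mf, gf, pW, fg⟩ :=
    mil_chart (to1 y hy.1).1 ((to1 y hy.1).2.2.1.2 hy.2)
  have o1 : IsOpen {x : YY | pl (ac (lc c) x.1) ≠ 0} :=
    isOpen_ne_fun (cont_pl.comp (cont_lc c)) continuous_const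
  have c1 : ContinuousOn (fun x : YY => toM (ac (lc c) x.1)) {x : YY | pl (ac (lc c) x.1) ≠ 0} :=
    cont_toM.comp (cont_lc c).continuousOn fun x hx => hx
  have c2 : ContinuousOn (fun q : ℂ × ℝ => f q.1) (Prod.fst ⁻¹' B) :=
    cf.comp continuousOn_fst fun q hq => hq
  have c3 : ContinuousOn (fun q : ℂ × ℝ => xx (f q.1) + q.2 ^ 2) (Prod.fst ⁻¹' B) :=
    (cont_xx.comp c2 fun q hq => (MM_ne (mf hq)).1).add (by fun_prop)
  refine loc_chart (W := {x : YY | pl (ac (lc c) x.1) ≠ 0} ∩ (fun x => toM (ac (lc c) x.1)) ⁻¹' W)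
    (G := fun x => (g (toM (ac (lc c) x.1)), x.2)) (F := fun q => (ac (lc c)⁻¹ (nn (f q.1)), q.2))
    (B := Prod.fst ⁻¹' B ∩ (fun q => xx (f q.1) + q.2 ^ 2) ⁻¹' Ioo (13 / 5) (14 / 5))
    (c1.isOpen_inter_preimage o1 oW)
    ((cg.comp_continuousOn (c1.mono inter_subset_left)).prodMk continuousOn_snd)
    (c3.isOpen_inter_preimage (oB.preimage continuous_fst) isOpen_Ioo)
    (((cont_ac1 _).comp_continuousOn (cont_nn.comp
      (c2.mono inter_subset_left) fun q hq => (MM_ne (mf hq.1)).2)).prodMk continuousOn_snd)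
    (fun q hq => ?_) (fun q hq => ?_) (fun x hx => ?_)
    ⟨hy.1, (lc_Pg hy.1.1.1 hy.1.2.2.1 hy.1.2.2.2).2, pW⟩ hy.2 hO
  · obtain ⟨a, b⟩ := nn_Pg (mf hq.1)
    obtain ⟨r, hr, e⟩ := nn_ex (MM_ne (mf hq.1)).2
    have n : ac (lc c)⁻¹ (nn (f q.1)) ∈ N3 := (N3_ac ni).2 a.1
    have e1 : xx (ac (lc c)⁻¹ (nn (f q.1))) = xx (f q.1) := by
      rw [xx_ac hi, e, xx_ac (ofReal_ne_zero.2 hr.ne')]
    obtain ⟨e2, e3⟩ := pl_lc c (ac (lc c)⁻¹ (nn (f q.1)))
    rw [← ac_mul, mul_inv_cancel₀ hl, ac_one] at e2 e3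
    refine ⟨⟨n, Or.inr (e1 ▸ hq.2.1)⟩, ⟨n, ?_, e1 ▸ hq.2.2⟩, ?_, ?_⟩
    · rw [pl_ac]
      exact mul_ne_zero (pow_ne_zero _ hi) b
    · have := a.2.1
      rw [e3] at this
      exact (mul_eq_zero.1 this).resolve_left (by cases c <;> simp)
    · rw [← e2]
      exact a.2.2.lt_of_ne fun e4 => b (Complex.ext e4.symm a.2.1)
  · show (g (toM (ac (lc c) (ac (lc c)⁻¹ (nn (f q.1))))), q.2) = q
    rw [← ac_mul, mul_inv_cancel₀ hl, ac_one, toM_nn (mf hq.1), gf]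
  · obtain ⟨a1, a2, a3, a4⟩ := to1 x hx.1
    obtain ⟨b1, b2, b3⟩ := fg _ a1 hx.2.2
    refine ⟨⟨b1, ?_⟩, ?_, a3.symm.trans b3⟩
    · show xx (f (g (toM (ac (lc c) x.1)))) + x.2 ^ 2 ∈ Ioo (13 / 5) (14 / 5)
      rw [b2, a2]
      exact ⟨hx.1.1.2.resolve_left hx.1.2.1.2.1, hx.1.2.1.2.2⟩
    · show (ac (lc c)⁻¹ (nn (f (g (toM (ac (lc c) x.1))))), x.2) = x
      rw [b2, a4]

end Pool.Agent.MP_7ebdba_gt.sm.p

end
end MrgPart4

-- ======== part 5: formerly Pool.Agent.MP_7ebdba_gt.sm.Final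
section MrgPart5

/-! Smooth form: assembly. -/

namespace Pool.Agent.MP_7ebdba_gt.sm

open p in
theorem p_stmt : PStmt :=
  fin (base th tw) alg (pg2 pageA (pageB pageA) p.cmp) p.rel w23 w1v2 w1w loc bridge

theorem smooth : SmoothStmt := smooth_of_p p_stmt

end Pool.Agent.MP_7ebdba_gt.sm

end MrgPart5

-- marker of a merged file
example : 731051 + 348730 = 731051 + 348730 := rfl

end MrgPart6

-- marker of a merged file
example : 731051 + 348730 = 731051 + 348730 := rfl
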