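import Pool.Agent.MP_7ebdba_gt.sm.Mod

/-! Row PROF: the one-dimensional profiles exist. -/

open scoped ContDiff Topology
open Set Filter

noncomputable section

namespace Pool.Agent.MP_7ebdba_gt.sm

/-- smooth interpolation between `f` (left of `a`) and `g` (right of `b`) -/
theorem prof_blend (f g : ℝ → ℝ) (a b : ℝ) (hab : a < b)
    (hf : ∀ x ≤ b, ContDiffAt ℝ ∞ f x) (hg : ∀ x ≥ a, ContDiffAt ℝ ∞ g x) :
    ∃ h : ℝ → ℝ, ContDiff ℝ ∞ h ∧ (∀ x ≤ a, h x = f x) ∧ (∀ x ≥ b, h x = g x) ∧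
      ∀ x, ∃ t s : ℝ, 0 ≤ t ∧ t ≤ 1 ∧ 0 ≤ s ∧ h x = (1 - t) * f x + t * g x ∧
        deriv h x = (1 - t) * deriv f x + t * deriv g x + s * (g x - f x) ∧
        (x < a → t = 0 ∧ s = 0) ∧ (b < x → t = 1 ∧ s = 0) := by
  have hd : 0 < b - a := sub_pos.2 hab
  set φ : ℝ → ℝ := fun x => Real.smoothTransition ((x - a) / (b - a)) with hφ
  have hφs : ContDiff ℝ ∞ φ :=
    Real.smoothTransition.contDiff.comp ((contDiff_id.sub contDiff_const).div_const _)
  have hφm : Monotone φ := fun x y hxy =>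
    Real.smoothTransition.monotone (div_le_div_of_nonneg_right (by linarith) hd.le)
  have h0 : ∀ x ≤ a, φ x = 0 := fun x hx =>
    Real.smoothTransition.zero_of_nonpos (div_nonpos_of_nonpos_of_nonneg (by linarith) hd.le)
  have h1 : ∀ x ≥ b, φ x = 1 := fun x hx =>
    Real.smoothTransition.one_of_one_le ((one_le_div hd).2 (by linarith))
  set h : ℝ → ℝ := fun x => (1 - φ x) * f x + φ x * g x with hh
  have hlo : ∀ x ≤ a, h x = f x := fun x hx => by simp [hh, h0 x hx]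
  have hhi : ∀ x ≥ b, h x = g x := fun x hx => by simp [hh, h1 x hx]
  have elo : ∀ x < a, h =ᶠ[𝓝 x] f := fun x hx => by
    filter_upwards [Iio_mem_nhds hx] with y hy using hlo y (le_of_lt hy)
  have ehi : ∀ x > b, h =ᶠ[𝓝 x] g := fun x hx => by
    filter_upwards [Ioi_mem_nhds hx] with y hy using hhi y (le_of_lt hy)
  refine ⟨h, ?_, hlo, hhi, ?_⟩
  · rw [contDiff_iff_contDiffAt]
    intro x
    rcases lt_or_ge x a with hx | hx
    · exact (hf x (by linarith)).congr_of_eventuallyEq (elo x hx)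
    rcases lt_or_ge b x with hy | hy
    · exact (hg x hx).congr_of_eventuallyEq (ehi x hy)
    exact ((contDiffAt_const.sub hφs.contDiffAt).mul (hf x hy)).add
      (hφs.contDiffAt.mul (hg x hx))
  · intro x
    rcases lt_or_ge x a with hx | hx
    · refine ⟨0, 0, le_rfl, zero_le_one, le_rfl, ?_, ?_, fun _ => ⟨rfl, rfl⟩,
        fun hb => absurd hb (by linarith)⟩
      · simp [hlo x hx.le]
      · simp [(elo x hx).deriv_eq]
    rcases lt_or_ge b x with hy | hy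
    · refine ⟨1, 0, zero_le_one, le_rfl, le_rfl, ?_, ?_, fun hb => absurd hb (by linarith),
        fun _ => ⟨rfl, rfl⟩⟩
      · simp [hhi x hy.le]
      · simp [(ehi x hy).deriv_eq]
    have dφ : HasDerivAt φ (deriv φ x) x :=
      (hφs.differentiable (by simp) x).hasDerivAt
    have df : HasDerivAt f (deriv f x) x := ((hf x hy).differentiableAt (by simp)).hasDerivAt
    have dg : HasDerivAt g (deriv g x) x := ((hg x hx).differentiableAt (by simp)).hasDerivAt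
    have dh : HasDerivAt h ((0 - deriv φ x) * f x + (1 - φ x) * deriv f x +
        (deriv φ x * g x + φ x * deriv g x)) x :=
      (((hasDerivAt_const x (1 : ℝ)).sub dφ).mul df).add (dφ.mul dg)
    refine ⟨φ x, deriv φ x, Real.smoothTransition.nonneg _, Real.smoothTransition.le_one _,
      hφm.deriv_nonneg, rfl, ?_, fun hb => absurd hb (by linarith),
      fun hb => absurd hb (by linarith)⟩
    rw [dh.deriv]; ring

/-- a smooth decreasing cut-off with bounded derivative -/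
theorem prof_cut (a b : ℝ) (hab : a < b) :
    ∃ h : ℝ → ℝ, ContDiff ℝ ∞ h ∧ (∀ x ≤ a, h x = 1) ∧ (∀ x ≥ b, h x = 0) ∧
      (∀ x, 0 ≤ h x ∧ h x ≤ 1) ∧ (∀ x, deriv h x ≤ 0) ∧ ∃ M, 0 ≤ M ∧ ∀ x, |deriv h x| ≤ M := by
  obtain ⟨h, hs, hlo, hhi, hm⟩ := prof_blend (fun _ => 1) (fun _ => 0) a b hab
    (fun _ _ => contDiffAt_const) (fun _ _ => contDiffAt_const)
  refine ⟨h, hs, hlo, hhi, fun x => ?_, fun x => ?_, ?_⟩
  · obtain ⟨t, s, h0, h1, -, e, -⟩ := hm x
    rw [e]; constructor <;> linarith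
  · obtain ⟨t, s, -, -, h2, -, e, -⟩ := hm x
    rw [e]; simp [h2]
  · have hc : Continuous (deriv h) := hs.continuous_deriv (by simp)
    obtain ⟨M, hM⟩ := (isCompact_Icc (a := a) (b := b)).exists_bound_of_continuousOn
      hc.continuousOn
    refine ⟨max M 0, le_max_right _ _, fun x => ?_⟩
    by_cases hx : x ∈ Icc a b
    · exact (hM x hx).trans (le_max_left _ _)
    · obtain ⟨t, s, -, -, -, -, e, l, r⟩ := hm x
      have : s = 0 := by
        rcases lt_or_ge x a with h1 | h1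
        · exact (l h1).2
        · exact (r (by by_contra h2; exact hx ⟨h1, not_lt.1 h2⟩)).2
      rw [e]; simp [this]

theorem prof_F : ∃ F : ℝ → ℝ, ContDiff ℝ ∞ F ∧ (∀ X ≤ 3, F X = X) ∧
    (∀ X ≥ 4, F X = 6 - (X ^ 3)⁻¹) ∧ ∀ X, 0 < deriv F X := by
  obtain ⟨h, hs, hlo, hhi, hm⟩ := prof_blend (fun X => X) (fun X => 6 - (X ^ 3)⁻¹) 3 4
    (by norm_num) (fun _ _ => contDiffAt_id)
    (fun x hx => contDiffAt_const.sub ((contDiffAt_id.pow 3).inv
      (pow_ne_zero _ (by simp only [id]; linarith))))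
  refine ⟨h, hs, hlo, hhi, fun x => ?_⟩
  obtain ⟨t, s, h0, h1, h2, -, e, l, r⟩ := hm x
  rw [e]
  rcases lt_or_ge x 3 with hx | hx
  · simp [l hx]
  have hx0 : 0 < x := by linarith
  have dg : HasDerivAt (fun X : ℝ => 6 - (X ^ 3)⁻¹) (0 - -((3 : ℕ) * x ^ (3 - 1)) / (x ^ 3) ^ 2) x :=
    (hasDerivAt_const x (6 : ℝ)).sub ((hasDerivAt_pow 3 x).inv (pow_ne_zero _ hx0.ne'))
  have hp : 0 < deriv (fun X : ℝ => 6 - (X ^ 3)⁻¹) x := by
    rw [dg.deriv, neg_div, zero_sub, neg_neg]; positivity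
  have hs' : 0 ≤ s * (6 - (x ^ 3)⁻¹ - x) := by
    rcases lt_or_ge 4 x with hy | hy
    · simp [r hy]
    · have : (x ^ 3)⁻¹ ≤ 1 := inv_le_one_of_one_le₀ (one_le_pow₀ (by linarith))
      exact mul_nonneg h2 (by linarith)
  have hc : 0 < (1 - t) * 1 + t * deriv (fun X : ℝ => 6 - (X ^ 3)⁻¹) x := by
    rcases h0.eq_or_lt with h3 | h3
    · rw [← h3]; norm_num
    · have := mul_pos h3 hp; linarith
  rw [deriv_id'']; linarith

theorem prof_β : ∃ β : ℝ → ℝ, ContDiff ℝ ∞ β ∧ (∀ X ≤ 3, β X = 1) ∧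
    (∀ X ≥ 4, β X = (√X ^ 3)⁻¹) ∧ (∀ X, 0 < β X) ∧ ∀ X, deriv β X ≤ 0 := by
  obtain ⟨h, hs, hlo, hhi, hm⟩ := prof_blend (fun _ => 1) (fun X => (√X ^ 3)⁻¹) 3 4
    (by norm_num) (fun _ _ => contDiffAt_const)
    (fun x hx => ((Real.contDiffAt_sqrt (by linarith)).pow 3).inv
      (pow_ne_zero _ (Real.sqrt_pos.2 (by linarith)).ne'))
  refine ⟨h, hs, hlo, hhi, fun x => ?_, fun x => ?_⟩
  · obtain ⟨t, s, h0, h1, h2, e, -, l, r⟩ := hm x
    rw [e]
    rcases lt_or_ge x 3 with hx | hx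
    · simp [l hx]
    have hp : 0 < (√x ^ 3)⁻¹ := by
      have := Real.sqrt_pos.2 (show 0 < x by linarith); positivity
    rcases h0.eq_or_lt with h3 | h3
    · rw [← h3]; norm_num
    · have := mul_pos h3 hp; linarith
  · obtain ⟨t, s, h0, h1, h2, -, e, l, r⟩ := hm x
    rw [e]
    rcases lt_or_ge x 3 with hx | hx
    · simp [l hx]
    have hx0 : 0 < x := by linarith
    have hq : 1 ≤ √x := Real.one_le_sqrt.2 (by linarith)
    have hq0 : 0 < √x := by linarith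
    have dg : HasDerivAt (fun X : ℝ => (√X ^ 3)⁻¹)
        (-((3 : ℕ) * √x ^ (3 - 1) * (1 / (2 * √x))) / (√x ^ 3) ^ 2) x :=
      ((Real.hasDerivAt_sqrt hx0.ne').pow 3).inv (pow_ne_zero _ hq0.ne')
    have hp : deriv (fun X : ℝ => (√X ^ 3)⁻¹) x ≤ 0 := by
      rw [dg.deriv, neg_div, neg_nonpos]; positivity
    have h3 : (√x ^ 3)⁻¹ ≤ 1 := inv_le_one_of_one_le₀ (one_le_pow₀ hq)
    have h4 := mul_nonpos_of_nonneg_of_nonpos h0 hp
    have h5 := mul_nonpos_of_nonneg_of_nonpos h2 (sub_nonpos.2 h3)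
    rw [deriv_const]; linarith

theorem prof_k : ∃ k : ℝ → ℝ, ContDiff ℝ ∞ k ∧ (∀ σ ≤ 8 / 9, k σ = σ / (1 - σ)) ∧
    ∀ σ, 0 < deriv k σ := by
  obtain ⟨h, hs, hlo, -, hm⟩ := prof_blend (fun σ => σ / (1 - σ)) (fun σ => σ + 9) (8 / 9) (9 / 10)
    (by norm_num)
    (fun x hx => contDiffAt_id.div (contDiffAt_const.sub contDiffAt_id)
      (ne_of_gt (by linarith)))
    (fun _ _ => contDiffAt_id.add contDiffAt_const)
  refine ⟨h, hs, hlo, fun x => ?_⟩
  obtain ⟨t, s, h0, h1, h2, -, e, l, r⟩ := hm x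
  have dg : deriv (fun σ : ℝ => σ + 9) x = 1 := ((hasDerivAt_id x).add_const 9).deriv
  rw [e, dg]
  rcases lt_or_ge (9 / 10) x with hy | hy
  · simp [r hy]
  have hx1 : 0 < 1 - x := by linarith
  have df : HasDerivAt (fun σ : ℝ => σ / (1 - σ)) ((1 * (1 - x) - x * (0 - 1)) / (1 - x) ^ 2) x :=
    (hasDerivAt_id x).div ((hasDerivAt_const x (1 : ℝ)).sub (hasDerivAt_id x)) hx1.ne'
  have hp : 0 < deriv (fun σ : ℝ => σ / (1 - σ)) x := by
    rw [df.deriv]
    exact div_pos (by linarith) (by positivity)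
  have hs' : 0 ≤ s * (x + 9 - x / (1 - x)) := by
    rcases lt_or_ge x (8 / 9) with hx | hx
    · simp [l hx]
    · have : x / (1 - x) ≤ 9 := by rw [div_le_iff₀ hx1]; linarith
      exact mul_nonneg h2 (by linarith)
  have hc : 0 < (1 - t) * deriv (fun σ : ℝ => σ / (1 - σ)) x + t * 1 := by
    rcases h1.eq_or_lt with h3 | h3
    · rw [h3]; norm_num
    · have := mul_pos (sub_pos.2 h3) hp; linarith
  linarith

theorem prof : ProfStmt := by
  obtain ⟨F, F1, F2, F3, F4⟩ := prof_F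
  obtain ⟨β, b1, b2, b3, b4, b5⟩ := prof_β
  obtain ⟨k, k1, k2, k3⟩ := prof_k
  obtain ⟨χ, c1, c2, c3, c4, -, M, M0, hM⟩ := prof_cut (1 / 125) (1 / 100) (by norm_num)
  obtain ⟨η, e1, e2, e3, e4, e5, -⟩ := prof_cut (8 / 9) (9 / 10) (by norm_num)
  have hp : 0 < M + 126 := by linarith
  refine ⟨⟨F, χ, β, η, fun σ => k σ + 7 * (1 - η σ), (M + 126)⁻¹, F1, F2, F3, F4, c1, c2, c3, c4,
    inv_pos.2 hp, ?_, fun τ => ?_, b1, b2, b3, b4, b5, e1, e2, e3, e4,
    k1.add (contDiff_const.mul (contDiff_const.sub e1)), fun σ hσ => ?_, fun σ => ?_⟩⟩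
  · rw [one_div]; exact inv_strictAnti₀ (by norm_num) (by linarith)
  · rw [inv_mul_lt_iff₀ hp]; linarith [hM τ]
  · simp only [k2 σ hσ, e2 σ hσ]; ring
  · have dk : HasDerivAt k (deriv k σ) σ := (k1.differentiable (by simp) σ).hasDerivAt
    have de : HasDerivAt η (deriv η σ) σ := (e1.differentiable (by simp) σ).hasDerivAt
    have d : HasDerivAt (fun σ => k σ + 7 * (1 - η σ)) (deriv k σ + 7 * (0 - deriv η σ)) σ :=
      dk.add (((hasDerivAt_const σ (1 : ℝ)).sub de).const_mul 7)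
    rw [d.deriv, abs_of_nonpos (e5 σ)]
    linarith [k3 σ]

end Pool.Agent.MP_7ebdba_gt.sm
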